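import Pool.Agent.Work.MP_bb13ef_an.TD.Stmts2

/-!
# Block TD: assembly of the second part
-/

set_option autoImplicit false

open scoped ZeroAtInfty

namespace MPbb13ef

/-- without `c₀` and `ℓ₁` there are only finitely many spear vectors -/
theorem asm_VF (hVBD : S_VBD) (hGEN : S_GEN) (hVST : S_VST) (hVSP : S_VSP) (hVC0 : S_VC0)
    (hLG : S_LG) (X : Type) [NormedAddCommGroup X] [NormedSpace ℝ X] [CompleteSpace X]
    (h0 : ¬ HasC0 X) (h1 : ¬ HasL1 X) : {v : X | SpV v}.Finite := by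
  by_contra hinf
  have hinf' : {v : X | SpV v}.Infinite := hinf
  let e := hinf'.natEmbedding
  let v : ℕ → X := fun n => (e n : X)
  have hv : ∀ n, SpV (v n) := fun n => (e n).2
  have hinj : Function.Injective v := Subtype.val_injective.comp e.injective
  obtain ⟨M, hM, hst⟩ := hVST X v
  by_cases hO : OV v M = ∅
  · exact h0 (hVC0 hVBD X v hv hinj M hM hO)
  have hne : (OV v M).Nonempty := Set.nonempty_iff_ne_empty.2 hO
  obtain ⟨m, hm⟩ := hGEN (fun σ => (BV v σ ∩ OV v M).Nonempty)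
    (by
      obtain ⟨f, hf⟩ := hne
      exact ⟨f, ⟨hf.1, fun p hp => absurd hp List.not_mem_nil⟩, hf⟩)
    (fun J _ σ hσ => hVSP X v M hM hst J σ hσ)
  apply h1
  refine hLG X (fun i => v (m i)) (-1 / 2) (1 / 2) (by norm_num) (fun i => (hv _).1) ?_
  intro n s
  obtain ⟨f, hf, -⟩ := hm s n
  refine ⟨f, hf.1.1, fun i hi => ?_⟩
  have h2 : f (v (m i)) = sg (s i) := by
    refine hf.2 (m i, s i) ?_
    rw [List.mem_map]
    exact ⟨i, by simpa using hi, rfl⟩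
  cases hs : s i with
  | true =>
    rw [hs] at h2
    simp only [if_true]
    rw [h2, sg]
    norm_num
  | false =>
    rw [hs] at h2
    simp only [Bool.false_eq_true, if_false]
    rw [h2, sg]
    norm_num

theorem LSp.neg {X : Type} [NormedAddCommGroup X] [NormedSpace ℝ X] {g f : X →L[ℝ] ℝ} {b : ℝ}
    (h : LSp g b f) : LSp g b (-f) := by
  refine ⟨by rw [norm_neg]; exact h.1, fun x hx η hη => ?_⟩
  obtain ⟨y, z, u, l, m, k, hy, hz, hu, hfy, hfz, hgu, hl, hm, hk, hs, hd⟩ := h.2 x hx η hη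
  refine ⟨-z, -y, u, m, l, k, by rwa [norm_neg], by rwa [norm_neg], hu, ?_, ?_, hgu, hm, hl, hk,
    by linarith, ?_⟩
  · simpa using hfz
  · simpa using hfy
  · have e : x - (m • -z - l • -y + k • u) = x - (l • y - m • z + k • u) := by
      rw [smul_neg, smul_neg]
      abel
    rw [e]
    exact hd

/-- the local theorem -/
theorem asm_LOC (hLDT : S_LDT) (hLB : S_LB) (hLL4 : S_LL4) (hLHU : S_LHU) (hN : S_NRM)
    (hW : S_WPB) (hB : S_BOUF) (hC : S_CIT) (hG : S_SG2) (hP : S_CP2)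
    (X : Type) [NormedAddCommGroup X] [NormedSpace ℝ X] [CompleteSpace X]
    [TopologicalSpace.SeparableSpace X] (hA : ADP X) (h0 : ¬ HasC0 X) (h1 : ¬ HasL1 X)
    (g : X →L[ℝ] ℝ) (b : ℝ) (hg : ‖g‖ = 1) (hb0 : 0 ≤ b) (hb1 : b < 1) (hT : LocT g b) :
    ∃ v, SpV v ∧ InS g b v := by
  have hnorm : ∀ f ∈ {f | LS g b f}, ‖f‖ ≤ 1 := by
    rintro f (hf | rfl | rfl)
    · exact hf.1
    · exact hg.le
    · rw [norm_neg]; exact hg.le
  have hneg : ∀ f ∈ {f | LS g b f}, -f ∈ {f | LS g b f} := by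
    rintro f (hf | rfl | rfl)
    · exact Or.inl hf.neg
    · exact Or.inr (Or.inr rfl)
    · exact Or.inr (Or.inl (neg_neg _))
  have hgD : g ∈ {f | LS g b f} := Or.inr (Or.inl rfl)
  have hsp := hN hW hB hC X hA h1
  have hbd : ∀ x : X, ∃ f ∈ {f | LS g b f}, ‖f‖ ≤ 1 ∧ |f x| = ‖x‖ := by
    intro x
    rcases eq_or_ne x 0 with rfl | hx
    · exact ⟨g, hgD, hg.le, by simp⟩
    · obtain ⟨f, hf, hfx⟩ := hP X x (fun r hr => by
        obtain ⟨f, hf, hfr⟩ := hsp x r hr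
        exact ⟨f, hG X f (prf_HULL X f hf), hfr⟩)
      have hx0 : 0 < ‖x‖ := norm_pos_iff.2 hx
      have h1 : ‖f‖ = 1 := by
        refine le_antisymm hf.1 ?_
        have := f.le_opNorm x
        rw [hfx, Real.norm_of_nonneg hx0.le] at this
        exact le_of_mul_le_mul_right (by linarith) hx0
      exact ⟨f, Or.inl (hLHU X g f b hb0 hT hf h1), hf.1,
        by rw [hfx, abs_of_nonneg (norm_nonneg _)]⟩
  obtain ⟨d, hd1, hd2⟩ := prf_DNS X
  have hcons : Cons ({g} : Set (X →L[ℝ] ℝ)) := by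
    intro T hTg ε hε
    obtain ⟨x, hx, hgx⟩ : ∃ x : X, ‖x‖ ≤ 1 ∧ 1 - ε < g x := by
      by_contra hcon
      push Not at hcon
      have hmx : ‖g‖ ≤ max (1 - ε) 0 := by
        refine ContinuousLinearMap.opNorm_le_of_unit_norm (le_max_right _ _) ?_
        intro x hx
        rw [Real.norm_eq_abs]
        refine abs_le'.2 ⟨(hcon x hx.le).trans (le_max_left _ _), ?_⟩
        have := hcon (-x) (by rw [norm_neg]; exact hx.le)
        rw [map_neg] at this
        exact this.trans (le_max_left _ _)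
      rw [hg] at hmx
      rcases le_max_iff.1 hmx with h | h <;> linarith
    refine ⟨x, hx, fun t ht => ?_⟩
    have : t = g := by simpa using hTg (Finset.mem_coe.2 ht)
    rw [this]
    exact hgx
  obtain ⟨P, hPe, hst⟩ := prf_STB X {f | LS g b f} (List (ℕ × Bool)) (UB d) {g}
    (by rintro f rfl; exact hgD) (Set.countable_singleton g) hcons
  have hPP : Ext {f | LS g b f} P P := ⟨Set.Subset.rfl, hPe.2.1, hPe.2.2.1, hPe.2.2.2⟩
  have hU : Und {f | LS g b f} P = ∅ := by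
    by_contra hne
    obtain ⟨x, hx1, hx2⟩ := hLL4 X {f | LS g b f} P d hnorm hneg hd1 hd2 hPP hst
      (Set.nonempty_iff_ne_empty.2 hne)
    refine h1 (prf_L1E X x hx1 (fun n s => ?_))
    obtain ⟨e, he, h⟩ := hx2 n s
    exact ⟨e, hnorm e he, h⟩
  have hgP : g ∈ P := hPe.1 rfl
  obtain ⟨v, hv, hvP⟩ := hLB hLDT X {f | LS g b f} P g b (fun f hf => hf) hneg hbd hg.le hb1 hgP
    h0 hPP hU
  refine ⟨v, ⟨hv.1, fun x => ?_⟩, hv.1, by rw [hvP g hgP]; exact hb1⟩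
  obtain ⟨f, hf, hf1, hfx⟩ := hbd x
  have h2 := hv.2 f hf
  have hle : ∀ z : X, |f z| ≤ ‖z‖ := by
    intro z
    have := f.le_opNorm z
    rw [Real.norm_eq_abs] at this
    exact this.trans (mul_le_of_le_one_left (norm_nonneg _) hf1)
  rcases le_total 0 (f v * f x) with hs | hs
  · left
    have h3 : |f (v + x)| = 1 + ‖x‖ := by
      rw [map_add, ← h2, ← hfx]
      exact (abs_add_eq_add_abs_iff _ _).2 (mul_nonneg_iff.1 hs)
    rw [← h3]
    exact hle _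
  · right
    have h3 : |f (v - x)| = 1 + ‖x‖ := by
      rw [map_sub, ← h2, ← hfx, sub_eq_add_neg, ← abs_neg (f x)]
      exact (abs_add_eq_add_abs_iff _ _).2 (mul_nonneg_iff.1 (by linarith [mul_neg (f v) (f x)]))
    rw [← h3]
    exact hle _

/-- the strong diameter two property of the slice given by `h` and `b` -/
def SD2 {X : Type} [NormedAddCommGroup X] [NormedSpace ℝ X] (h : X →L[ℝ] ℝ) (b : ℝ) : Prop :=
  ∀ (n : ℕ) (l : Fin n → ℝ) (g : Fin n → (X →L[ℝ] ℝ)) (a : Fin n → ℝ),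
    (∀ i, 0 ≤ l i) → ∑ i, l i = 1 → (∀ i, ∃ x, InS (g i) (a i) x) →
    (∀ i, ∀ x, InS (g i) (a i) x → b < h x) → ∀ r : ℝ, r < 2 →
    ∃ x y : Fin n → X, (∀ i, InS (g i) (a i) (x i)) ∧ (∀ i, InS (g i) (a i) (y i)) ∧
      r < ‖∑ i, l i • (x i - y i)‖

/-- the theorem, local form -/
theorem asm_TD2 (hVBD : S_VBD) (hGEN : S_GEN) (hVST : S_VST) (hVSP : S_VSP) (hVC0 : S_VC0)
    (hLG : S_LG) (hNOR : S_NOR)
    (hLDT : S_LDT) (hLB : S_LB) (hLL4 : S_LL4) (hLHU : S_LHU) (hN : S_NRM)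
    (hW : S_WPB) (hB : S_BOUF) (hC : S_CIT) (hG : S_SG2) (hP : S_CP2)
    (X : Type) [NormedAddCommGroup X] [NormedSpace ℝ X] [CompleteSpace X]
    [TopologicalSpace.SeparableSpace X] (hX : ¬ FiniteDimensional ℝ X) (hNI : NI1 X)
    (h0 : ¬ HasC0 X) (h1 : ¬ HasL1 X) :
    ∃ F : Set X, F.Finite ∧ ∀ (h : X →L[ℝ] ℝ) (c : ℝ), (∃ z, InS h c z) →
      (∀ v ∈ F, ¬ InS h c v) → ∃ (k : X →L[ℝ] ℝ) (a : ℝ), (∃ z, InS k a z) ∧
        (∀ x, InS k a x → InS h c x) ∧ SD2 k a := by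
  refine ⟨{v | SpV v}, asm_VF hVBD hGEN hVST hVSP hVC0 hLG X h0 h1, ?_⟩
  intro h c hz hF
  by_contra hcon
  obtain ⟨g, b, hg, hb0, hb1, hgb⟩ := hNOR X (exists_ne_zero_of_not_fd X hX) h c hz
  have hT : LocT g b := by
    intro h' c' hz' hsub
    by_contra hno
    refine hcon ⟨h', c', hz', fun x hx => hgb x ⟨hx.1, hsub x hx⟩, ?_⟩
    intro n l k a hl hl1 hne hss r hr
    by_contra hxy
    push Not at hxy
    exact hno ⟨n, l, k, a, r, ⟨hl, hl1, hne, fun x y hx hy => hxy x y hx hy⟩, hr, hss⟩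
  obtain ⟨v, hv, hvS⟩ := asm_LOC hLDT hLB hLL4 hLHU hN hW hB hC hG hP X (prf_NIA X hNI) h0 h1 g b
    hg hb0 hb1 hT
  exact hF v hv (hgb v hvS)

end MPbb13ef
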