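import Pool.Agent.Work.MP_bb13ef_an.TD.Stmts

set_option autoImplicit false

namespace MPbb13ef

namespace IBOUF

variable {X : Type} [NormedAddCommGroup X] [NormedSpace ℝ X]

/-- points of slices with small oscillation of all `f i` -/
def DD {m : ℕ} (f : Fin m → (X →L[ℝ] ℝ)) (η : ℝ) : Set X :=
  {e | ‖e‖ ≤ 1 ∧ ∃ (k : X →L[ℝ] ℝ) (a : ℝ), InS k a e ∧
    ∀ x, InS k a x → ∀ i, |f i x - f i e| < η / 2}

theorem ball_le (g : X →L[ℝ] ℝ) (x : X) (hx : ‖x‖ ≤ 1) : |g x| ≤ ‖g‖ := by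
  have h1 := g.le_opNorm x
  rw [Real.norm_eq_abs] at h1
  calc |g x| ≤ ‖g‖ * ‖x‖ := h1
    _ ≤ ‖g‖ * 1 := by gcongr
    _ = ‖g‖ := mul_one _

theorem lin {m : ℕ} (φ : (Fin m → ℝ) →L[ℝ] ℝ) (v : Fin m → ℝ) :
    φ v = ∑ i, φ (Pi.single i 1) * v i := by
  have h : v = ∑ i, v i • (Pi.single i (1 : ℝ) : Fin m → ℝ) := by
    funext j
    rw [Finset.sum_apply]
    simp [Pi.single_apply]
  calc φ v = φ (∑ i, v i • (Pi.single i (1 : ℝ) : Fin m → ℝ)) := by rw [← h]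
    _ = ∑ i, φ (Pi.single i 1) * v i := by
      rw [map_sum]
      refine Finset.sum_congr rfl fun i _ => ?_
      rw [map_smul, smul_eq_mul, mul_comm]

theorem claim {m : ℕ} (f : Fin m → (X →L[ℝ] ℝ)) (z : X) (hz : ‖z‖ ≤ 1) (η : ℝ) (hη : 0 < η) :
    (fun i => f i z) ∈ closure (convexHull ℝ ((fun (e : X) (i : Fin m) => f i e) '' DD f η)) := by
  by_contra hcon
  obtain ⟨φ, c, h1, h2⟩ := geometric_hahn_banach_closed_point
    (convex_convexHull ℝ ((fun (e : X) (i : Fin m) => f i e) '' DD f η)).closure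
    isClosed_closure hcon
  obtain ⟨α, hα⟩ : ∃ α : Fin m → ℝ, ∀ i, α i = φ (Pi.single i 1) := ⟨_, fun _ => rfl⟩
  have hφ : ∀ v : Fin m → ℝ, φ v = ∑ i, α i * v i := by
    intro v
    rw [lin φ v]
    exact Finset.sum_congr rfl fun i _ => by rw [hα]
  rw [hφ] at h2
  obtain ⟨A, hA⟩ : ∃ A : X → ℝ, ∀ x, A x = ∑ i, α i * f i x := ⟨_, fun _ => rfl⟩
  rw [← hA] at h2
  obtain ⟨M, hM⟩ : ∃ M : ℝ, M = ∑ i, ‖f i‖ ^ 2 := ⟨_, rfl⟩
  have hM0 : 0 ≤ M := by rw [hM]; positivity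
  obtain ⟨R, hR⟩ : ∃ R : ℝ, R = (M + 1) / (2 * (A z - c)) := ⟨_, rfl⟩
  have hd : 0 < A z - c := by linarith
  have hRpos : 0 < R := by rw [hR]; positivity
  have hR2 : 2 * R * (A z - c) = M + 1 := by
    rw [hR]
    field_simp
  obtain ⟨Ψ, hΨ⟩ : ∃ Ψ : X → ℝ, ∀ x, Ψ x = ∑ i, (f i x + R * α i) ^ 2 :=
    ⟨_, fun _ => rfl⟩
  have hexp : ∀ x, Ψ x = ∑ i, (f i x) ^ 2 + 2 * R * A x + ∑ i, (R * α i) ^ 2 := by
    intro x
    rw [hΨ, hA, Finset.mul_sum, ← Finset.sum_add_distrib, ← Finset.sum_add_distrib]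
    exact Finset.sum_congr rfl fun i _ => by ring
  have hbdd : BddAbove (Ψ '' {x : X | ‖x‖ ≤ 1}) := by
    refine ⟨∑ i, (‖f i‖ + |R * α i|) ^ 2, ?_⟩
    rintro _ ⟨x, hx, rfl⟩
    rw [hΨ]
    refine Finset.sum_le_sum fun i _ => ?_
    have e1 : |f i x + R * α i| ≤ ‖f i‖ + |R * α i| := (abs_add_le _ _).trans (by
      have := ball_le (f i) x hx
      linarith)
    rw [← sq_abs (f i x + R * α i)]
    gcongr
  obtain ⟨θ, hθ⟩ : ∃ θ : ℝ, θ = η ^ 2 / 16 := ⟨_, rfl⟩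
  have hθ0 : 0 < θ := by rw [hθ]; positivity
  have hsup : ∀ x : X, ‖x‖ ≤ 1 → Ψ x ≤ sSup (Ψ '' {x : X | ‖x‖ ≤ 1}) := fun x hx =>
    le_csSup hbdd ⟨x, hx, rfl⟩
  have hex : ∃ e : X, ‖e‖ ≤ 1 ∧ sSup (Ψ '' {x : X | ‖x‖ ≤ 1}) - θ < Ψ e ∧ Ψ z ≤ Ψ e := by
    obtain ⟨_, ⟨e, he, rfl⟩, hlt⟩ := exists_lt_of_lt_csSup
      (⟨Ψ z, z, hz, rfl⟩ : (Ψ '' {x : X | ‖x‖ ≤ 1}).Nonempty)
      (sub_lt_self (sSup (Ψ '' {x : X | ‖x‖ ≤ 1})) hθ0)
    rcases le_or_gt (Ψ z) (Ψ e) with h3 | h3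
    · exact ⟨e, he, hlt, h3⟩
    · exact ⟨z, hz, hlt.trans h3, le_refl _⟩
  obtain ⟨e, he, he1, he2⟩ := hex
  have hge2 : ∑ i, (f i e) ^ 2 ≤ M := by
    rw [hM]
    refine Finset.sum_le_sum fun i _ => ?_
    rw [← sq_abs (f i e)]
    have := ball_le (f i) e he
    gcongr
  have hgz2 : 0 ≤ ∑ i, (f i z) ^ 2 := by positivity
  have hgt : c < A e := by
    rw [hexp, hexp] at he2
    have h3 : 2 * R * A z ≤ M + 2 * R * A e := by linarith
    have h4 : 2 * R * c < 2 * R * A e := by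
      have h5 : 2 * R * (A z - c) = 2 * R * A z - 2 * R * c := by ring
      linarith
    exact lt_of_mul_lt_mul_left h4 (by positivity)
  have hD : e ∈ DD f η := by
    obtain ⟨k, hk⟩ : ∃ k : X →L[ℝ] ℝ, k = ∑ i, (f i e + R * α i) • f i := ⟨_, rfl⟩
    have hkx : ∀ x, k x = ∑ i, (f i e + R * α i) * f i x := by
      intro x
      rw [hk, ContinuousLinearMap.sum_apply]
      exact Finset.sum_congr rfl fun i _ => by
        rw [ContinuousLinearMap.smul_apply, smul_eq_mul]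
    refine ⟨he, k, k e - θ, ⟨he, by linarith⟩, ?_⟩
    rintro x ⟨hx, hx2⟩ i
    have h5 := hsup x hx
    have h6 : ∑ i, (f i x - f i e) ^ 2 = Ψ x - Ψ e - 2 * (k x - k e) := by
      rw [hΨ, hΨ, hkx, hkx, ← Finset.sum_sub_distrib, ← Finset.sum_sub_distrib, Finset.mul_sum,
        ← Finset.sum_sub_distrib]
      exact Finset.sum_congr rfl fun i _ => by ring
    have h7 : ∑ i, (f i x - f i e) ^ 2 < 3 * θ := by
      rw [h6]
      linarith
    have h8 : 3 * θ < (η / 2) ^ 2 := by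
      rw [hθ]
      have : 0 < η ^ 2 := by positivity
      nlinarith
    have h9 : (f i x - f i e) ^ 2 ≤ ∑ i, (f i x - f i e) ^ 2 :=
      Finset.single_le_sum (f := fun i => (f i x - f i e) ^ 2) (fun j _ => sq_nonneg _)
        (Finset.mem_univ i)
    exact abs_lt_of_sq_lt_sq (by linarith) (by positivity)
  have h3 := h1 (fun i => f i e) (subset_closure (subset_convexHull ℝ _ ⟨e, hD, rfl⟩))
  rw [hφ, ← hA] at h3
  linarith

theorem gap : ∀ (τ : List ((X →L[ℝ] ℝ) × ℝ)) (z : X), (∀ p ∈ τ, p.2 < p.1 z) →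
    ∃ η : ℝ, 0 < η ∧ ∀ p ∈ τ, p.2 + η ≤ p.1 z
  | [], _, _ => ⟨1, one_pos, fun p hp => absurd hp (List.not_mem_nil)⟩
  | q :: τ, z, h => by
    obtain ⟨η, hη, hτ⟩ := gap τ z fun p hp => h p (List.mem_cons_of_mem q hp)
    have hq := h q List.mem_cons_self
    refine ⟨min η (q.1 z - q.2), lt_min hη (by linarith), ?_⟩
    intro p hp
    rcases List.mem_cons.mp hp with rfl | hp
    · have := min_le_right η (p.1 z - p.2)
      linarith
    · have h1 := hτ p hp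
      have := min_le_left η (q.1 z - q.2)
      linarith

end IBOUF

theorem pr_BOUF : S_BOUF := by
  intro X _ _ τ hne
  obtain ⟨z, hz, hzτ⟩ := hne
  obtain ⟨η, hη, hgap⟩ := IBOUF.gap τ z hzτ
  obtain ⟨f, hf⟩ : ∃ f : Fin τ.length → (X →L[ℝ] ℝ), ∀ i, f i = (τ.get i).1 :=
    ⟨_, fun _ => rfl⟩
  have hcl := IBOUF.claim f z hz η hη
  rw [Metric.mem_closure_iff] at hcl
  obtain ⟨p, hp, hdist⟩ := hcl (η / 2) (by positivity)
  rw [mem_convexHull_iff_exists_fintype] at hp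
  obtain ⟨ι, _, w, q, hw0, hw1, hq, hsum⟩ := hp
  choose e he heq using hq
  choose hen k a hin hosc using he
  let r : Fin (Fintype.card ι) ≃ ι := (Fintype.equivFin ι).symm
  refine ⟨Fintype.card ι, fun i => w (r i), fun i => k (r i), fun i => a (r i), fun i => hw0 _,
    ?_, fun i => ⟨_, hin (r i)⟩, ?_⟩
  · rw [← hw1]
    exact Equiv.sum_comp r w
  · intro x hx
    have hs1 : ∑ i, w (r i) = 1 := by
      rw [← hw1]
      exact Equiv.sum_comp r w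
    have hdi : ∀ j : Fin τ.length, |f j z - ∑ i, w (r i) * f j (e (r i))| < η / 2 := by
      intro j
      have h1 : p j = ∑ i, w (r i) * f j (e (r i)) := by
        rw [Equiv.sum_comp r (fun i => w i * f j (e i)), ← hsum, Finset.sum_apply]
        refine Finset.sum_congr rfl fun i _ => ?_
        rw [← heq i]
        rfl
      have h2 : dist (f j z) (p j) ≤ dist (fun i => f i z) p :=
        dist_le_pi_dist (fun i => f i z) p j
      rw [← h1, ← Real.dist_eq]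
      exact lt_of_le_of_lt h2 hdist
    refine ⟨?_, ?_⟩
    · calc ‖∑ i, w (r i) • x i‖ ≤ ∑ i, ‖w (r i) • x i‖ := norm_sum_le _ _
        _ ≤ ∑ i, w (r i) := by
            refine Finset.sum_le_sum fun i _ => ?_
            rw [norm_smul, Real.norm_eq_abs, abs_of_nonneg (hw0 _)]
            exact mul_le_of_le_one_right (hw0 _) (hx i).1
        _ = 1 := hs1
    · intro p hp
      obtain ⟨j, hj⟩ := List.get_of_mem hp
      have hfj : f j = p.1 := by rw [hf, hj]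
      have h3 := BOU.comb (f j) z η (fun i => w (r i)) x (fun i => e (r i)) (fun i => hw0 _) hs1
        (fun i => hosc (r i) (x i) (hx i) j) (hdi j)
      rw [hfj] at h3
      have h4 := hgap p hp
      have h5 := (abs_lt.mp h3).1
      linarith

end MPbb13ef
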