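import Pool.Agent.Work.MP_bb13ef_an.TD.Stmts

/-!
# CIT: one functional for countably many slices
-/

set_option autoImplicit false

namespace MPbb13ef

namespace ICIT

variable {X : Type} [NormedAddCommGroup X] [NormedSpace ℝ X]

/-- one step -/
theorem step (hA : ADP X) (w : X) (g : X →L[ℝ] ℝ) (a : ℝ) (hz : ∃ z, InS g a z) (c e : ℝ)
    (hc : 0 ≤ c) (he : 0 < e) :
    ∃ p : X × ℝ, InS g a p.1 ∧ |p.2| = 1 ∧ ‖w‖ + c - e ≤ ‖w + (p.2 * c) • p.1‖ := by
  have h1c : 0 < 1 + c := by linarith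
  have hδ : 0 < e / (1 + c) := div_pos he h1c
  obtain ⟨y, f, hy, hf, hfw, hfy⟩ := hA w g a hz (e / (1 + c)) hδ
  have key : ∀ s : ℝ, |s| = 1 → s * f y = |f y| →
      ‖w‖ + c - e ≤ ‖w + (s * c) • y‖ := by
    intro s _ hs
    have h2 : f (w + (s * c) • y) = f w + c * |f y| := by
      rw [map_add, map_smul, smul_eq_mul, ← hs]
      ring
    have h3 : f (w + (s * c) • y) ≤ ‖w + (s * c) • y‖ := by
      have h4 := f.le_opNorm (w + (s * c) • y)
      have h5 : ‖f‖ * ‖w + (s * c) • y‖ ≤ ‖w + (s * c) • y‖ :=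
        mul_le_of_le_one_left (norm_nonneg _) hf
      exact (le_abs_self _).trans (h4.trans h5)
    have h6 : c * (1 - e / (1 + c)) ≤ c * |f y| := mul_le_mul_of_nonneg_left hfy.le hc
    have h7 : e / (1 + c) * (1 + c) = e := div_mul_cancel₀ e h1c.ne'
    nlinarith
  rcases le_total 0 (f y) with h | h
  · exact ⟨(y, 1), hy, abs_one, key 1 abs_one (by rw [abs_of_nonneg h, one_mul])⟩
  · exact ⟨(y, -1), hy, by simp, key (-1) (by simp) (by rw [abs_of_nonpos h]; ring)⟩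

/-- the points and signs chosen at step `j` -/
noncomputable def ch (hA : ADP X) (g : ℕ → (X →L[ℝ] ℝ)) (a : ℕ → ℝ)
    (hz : ∀ i, ∃ z, InS (g i) (a i) z) (E : ℝ) (hE : 0 < E) (j : ℕ) (w : X) : X × ℝ :=
  Classical.choose (step hA w (g (Nat.unpair j).1) (a (Nat.unpair j).1) (hz _) ((j : ℝ) + 1)
    (E / 2 ^ (j + 1)) (by positivity) (by positivity))

theorem ch_spec (hA : ADP X) (g : ℕ → (X →L[ℝ] ℝ)) (a : ℕ → ℝ)
    (hz : ∀ i, ∃ z, InS (g i) (a i) z) (E : ℝ) (hE : 0 < E) (j : ℕ) (w : X) :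
    InS (g (Nat.unpair j).1) (a (Nat.unpair j).1) (ch hA g a hz E hE j w).1 ∧
      |(ch hA g a hz E hE j w).2| = 1 ∧
      ‖w‖ + ((j : ℝ) + 1) - E / 2 ^ (j + 1) ≤
        ‖w + ((ch hA g a hz E hE j w).2 * ((j : ℝ) + 1)) • (ch hA g a hz E hE j w).1‖ :=
  Classical.choose_spec (step hA w (g (Nat.unpair j).1) (a (Nat.unpair j).1) (hz _) ((j : ℝ) + 1)
    (E / 2 ^ (j + 1)) (by positivity) (by positivity))

/-- the vectors `w j` -/
noncomputable def W (hA : ADP X) (g : ℕ → (X →L[ℝ] ℝ)) (a : ℕ → ℝ)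
    (hz : ∀ i, ∃ z, InS (g i) (a i) z) (E : ℝ) (hE : 0 < E) (x : X) : ℕ → X
  | 0 => x
  | j + 1 => W hA g a hz E hE x j +
      ((ch hA g a hz E hE j (W hA g a hz E hE x j)).2 * ((j : ℝ) + 1)) •
        (ch hA g a hz E hE j (W hA g a hz E hE x j)).1

/-- the infinite sequence of points and signs -/
theorem seq (hA : ADP X) (g : ℕ → (X →L[ℝ] ℝ)) (a : ℕ → ℝ)
    (hz : ∀ i, ∃ z, InS (g i) (a i) z) (E : ℝ) (hE : 0 < E) (x : X) :
    ∃ (y : ℕ → X) (s : ℕ → ℝ), (∀ j, InS (g (Nat.unpair j).1) (a (Nat.unpair j).1) (y j)) ∧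
      (∀ j, |s j| = 1) ∧ ∀ N : ℕ,
        ‖x‖ + ∑ j ∈ Finset.range N, ((j : ℝ) + 1) - E ≤
          ‖x + ∑ j ∈ Finset.range N, (s j * ((j : ℝ) + 1)) • y j‖ := by
  refine ⟨fun j => (ch hA g a hz E hE j (W hA g a hz E hE x j)).1,
    fun j => (ch hA g a hz E hE j (W hA g a hz E hE x j)).2,
    fun j => (ch_spec hA g a hz E hE j _).1, fun j => (ch_spec hA g a hz E hE j _).2.1, ?_⟩
  have hW : ∀ N : ℕ, W hA g a hz E hE x N = x + ∑ j ∈ Finset.range N,
      ((ch hA g a hz E hE j (W hA g a hz E hE x j)).2 * ((j : ℝ) + 1)) •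
        (ch hA g a hz E hE j (W hA g a hz E hE x j)).1 := by
    intro N
    induction N with
    | zero => simp [W]
    | succ N ih =>
      rw [Finset.sum_range_succ, ← add_assoc, ← ih]
      rfl
  have hN : ∀ N : ℕ, ‖x‖ + ∑ j ∈ Finset.range N, ((j : ℝ) + 1) - E * (1 - 1 / 2 ^ N) ≤
      ‖W hA g a hz E hE x N‖ := by
    intro N
    induction N with
    | zero => simp [W]
    | succ N ih =>
      have h1 := (ch_spec hA g a hz E hE N (W hA g a hz E hE x N)).2.2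
      have h2 : W hA g a hz E hE x (N + 1) = W hA g a hz E hE x N +
        ((ch hA g a hz E hE N (W hA g a hz E hE x N)).2 * ((N : ℝ) + 1)) •
        (ch hA g a hz E hE N (W hA g a hz E hE x N)).1 := rfl
      rw [← h2] at h1
      rw [Finset.sum_range_succ]
      have h3 : E * (1 - 1 / 2 ^ (N + 1)) = E * (1 - 1 / 2 ^ N) + E / 2 ^ (N + 1) := by
        have h4 : (2 : ℝ) ^ (N + 1) = 2 * 2 ^ N := by ring
        rw [h4]
        field_simp
        ring
      linarith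
  intro N
  rw [← hW N]
  have h1 := hN N
  have h2 : E * (1 - 1 / 2 ^ N) ≤ E := by
    have h3 : (0 : ℝ) ≤ 1 / 2 ^ N := by positivity
    nlinarith
  linarith

/-- a functional for finitely many steps -/
theorem fin_fun (x : X) (y : ℕ → X) (s : ℕ → ℝ) (E : ℝ) (hy : ∀ j, ‖y j‖ ≤ 1)
    (hs : ∀ j, |s j| = 1) (N : ℕ)
    (h : ‖x‖ + ∑ j ∈ Finset.range N, ((j : ℝ) + 1) - E ≤
          ‖x + ∑ j ∈ Finset.range N, (s j * ((j : ℝ) + 1)) • y j‖) :
    ∃ f : X →L[ℝ] ℝ, ‖f‖ ≤ 1 ∧ ‖x‖ - E ≤ f x ∧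
      ∀ j < N, 1 - E / ((j : ℝ) + 1) ≤ s j * f (y j) := by
  obtain ⟨f, hf, hfv⟩ := exists_dual_vector'' ℝ
    (x + ∑ j ∈ Finset.range N, (s j * ((j : ℝ) + 1)) • y j)
  have hfv' : f (x + ∑ j ∈ Finset.range N, (s j * ((j : ℝ) + 1)) • y j) =
      ‖x + ∑ j ∈ Finset.range N, (s j * ((j : ℝ) + 1)) • y j‖ := hfv
  have hle : ∀ u : X, |f u| ≤ ‖u‖ := fun u =>
    (f.le_opNorm u).trans (mul_le_of_le_one_left (norm_nonneg _) hf)
  have hexp : f (x + ∑ j ∈ Finset.range N, (s j * ((j : ℝ) + 1)) • y j) =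
      f x + ∑ j ∈ Finset.range N, ((j : ℝ) + 1) * (s j * f (y j)) := by
    rw [map_add, map_sum]
    congr 1
    refine Finset.sum_congr rfl (fun j _ => ?_)
    rw [map_smul, smul_eq_mul]
    ring
  have hterm : ∀ j, s j * f (y j) ≤ 1 := by
    intro j
    have h1 : |s j * f (y j)| ≤ 1 := by
      rw [abs_mul, hs j, one_mul]
      exact (hle _).trans (hy j)
    exact (le_abs_self _).trans h1
  rw [← hfv', hexp] at h
  have hx : f x ≤ ‖x‖ := (le_abs_self _).trans (hle x)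
  refine ⟨f, hf, ?_, ?_⟩
  · have h1 : ∑ j ∈ Finset.range N, ((j : ℝ) + 1) * (s j * f (y j)) ≤
        ∑ j ∈ Finset.range N, ((j : ℝ) + 1) := by
      refine Finset.sum_le_sum (fun j _ => ?_)
      exact mul_le_of_le_one_right (by positivity) (hterm j)
    linarith
  · intro j hj
    have h1 : ∑ i ∈ Finset.range N, (((i : ℝ) + 1) - ((i : ℝ) + 1) * (s i * f (y i))) ≤ E := by
      rw [Finset.sum_sub_distrib]
      linarith
    have h2 : ((j : ℝ) + 1) - ((j : ℝ) + 1) * (s j * f (y j)) ≤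
        ∑ i ∈ Finset.range N, (((i : ℝ) + 1) - ((i : ℝ) + 1) * (s i * f (y i))) := by
      refine Finset.single_le_sum
        (f := fun i : ℕ => ((i : ℝ) + 1) - ((i : ℝ) + 1) * (s i * f (y i))) (fun i _ => ?_)
        (Finset.mem_range.2 hj)
      have h3 : ((i : ℝ) + 1) * (s i * f (y i)) ≤ (i : ℝ) + 1 :=
        mul_le_of_le_one_right (by positivity) (hterm i)
      show 0 ≤ ((i : ℝ) + 1) - ((i : ℝ) + 1) * (s i * f (y i))
      linarith
    have hj1 : (0 : ℝ) < (j : ℝ) + 1 := by positivity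
    have h4 : E / ((j : ℝ) + 1) * ((j : ℝ) + 1) = E := div_mul_cancel₀ E hj1.ne'
    have h5 : (1 - E / ((j : ℝ) + 1)) * ((j : ℝ) + 1) ≤ (s j * f (y j)) * ((j : ℝ) + 1) := by
      nlinarith
    exact le_of_mul_le_mul_right h5 hj1

end ICIT

open ICIT in
theorem pr_CIT : S_CIT := by
  intro X _ _ hA x g a hz ε hε
  have hE : 0 < ε / 2 := by linarith
  obtain ⟨y, s, hy, hs, hN⟩ := seq hA g a hz (ε / 2) hE x
  have hy1 : ∀ j, ‖y j‖ ≤ 1 := fun j => (hy j).1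
  have hne := IsCompact.nonempty_iInter_of_sequence_nonempty_isCompact_isClosed
    (fun N : ℕ => (WeakDual.toStrongDual ⁻¹' Metric.closedBall (0 : StrongDual ℝ X) 1) ∩
      {f : WeakDual ℝ X | ‖x‖ - ε / 2 ≤ f x ∧
        ∀ j < N, 1 - ε / 2 / ((j : ℝ) + 1) ≤ s j * f (y j)})
    (by
      rintro N f ⟨h1, h2, h3⟩
      exact ⟨h1, h2, fun j hj => h3 j (hj.trans (Nat.lt_succ_self N))⟩)
    (by
      intro N
      obtain ⟨f, hf, hfx, hfj⟩ := fin_fun x y s (ε / 2) hy1 hs N (hN N)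
      refine ⟨WeakDual.toStrongDual.symm f, ?_, hfx, hfj⟩
      show WeakDual.toStrongDual (WeakDual.toStrongDual.symm f) ∈ Metric.closedBall 0 1
      rw [LinearEquiv.apply_symm_apply, mem_closedBall_zero_iff]
      exact hf)
    (by
      refine (WeakDual.isCompact_closedBall (𝕜 := ℝ) (E := X) 0 1).inter_right ?_
      have h1 : {f : WeakDual ℝ X | ‖x‖ - ε / 2 ≤ f x ∧
        ∀ j : ℕ, j < 0 → 1 - ε / 2 / ((j : ℝ) + 1) ≤ s j * f (y j)} =
          {f : WeakDual ℝ X | ‖x‖ - ε / 2 ≤ f x} := by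
        ext f
        exact ⟨fun h => h.1, fun h => ⟨h, fun j hj => absurd hj (Nat.not_lt_zero j)⟩⟩
      rw [h1]
      exact isClosed_le continuous_const (WeakDual.eval_continuous x))
    (by
      intro N
      refine (WeakDual.isCompact_closedBall (𝕜 := ℝ) (E := X) 0 1).isClosed.inter ?_
      have h1 : {f : WeakDual ℝ X | ‖x‖ - ε / 2 ≤ f x ∧
        ∀ j < N, 1 - ε / 2 / ((j : ℝ) + 1) ≤ s j * f (y j)} =
          {f : WeakDual ℝ X | ‖x‖ - ε / 2 ≤ f x} ∩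
            ⋂ j : ℕ, ⋂ _ : j < N, {f : WeakDual ℝ X |
              1 - ε / 2 / ((j : ℝ) + 1) ≤ s j * f (y j)} := by
        ext f
        refine ⟨fun h => ⟨h.1, Set.mem_iInter₂.2 (fun j hj => h.2 j hj)⟩,
          fun h => ⟨h.1, fun j hj => Set.mem_iInter₂.1 h.2 j hj⟩⟩
      rw [h1]
      refine (isClosed_le continuous_const (WeakDual.eval_continuous x)).inter ?_
      refine isClosed_iInter (fun j => isClosed_iInter (fun _ => ?_))
      exact isClosed_le continuous_const (continuous_const.mul (WeakDual.eval_continuous (y j))))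
  obtain ⟨f, hf⟩ := hne
  rw [Set.mem_iInter] at hf
  have hF : ‖WeakDual.toStrongDual f‖ ≤ 1 := by
    have h1 : WeakDual.toStrongDual f ∈ Metric.closedBall 0 1 := (hf 0).1
    rwa [mem_closedBall_zero_iff] at h1
  have hfx : ‖x‖ - ε / 2 ≤ WeakDual.toStrongDual f x := (hf 0).2.1
  refine ⟨WeakDual.toStrongDual f, hF, by linarith, ?_⟩
  intro i η hη
  obtain ⟨k, hk⟩ := exists_nat_gt (ε / 2 / η)
  have hj : 1 - ε / 2 / (((Nat.pair i k : ℕ) : ℝ) + 1) ≤
      s (Nat.pair i k) * WeakDual.toStrongDual f (y (Nat.pair i k)) :=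
    (hf (Nat.pair i k + 1)).2.2 (Nat.pair i k) (Nat.lt_succ_self _)
  have hpk : (k : ℝ) ≤ ((Nat.pair i k : ℕ) : ℝ) := by
    exact_mod_cast Nat.right_le_pair i k
  have hpos : (0 : ℝ) < ((Nat.pair i k : ℕ) : ℝ) + 1 := by positivity
  have h1 : ε / 2 / (((Nat.pair i k : ℕ) : ℝ) + 1) < η := by
    rw [div_lt_iff₀ hη] at hk
    rw [div_lt_iff₀ hpos]
    nlinarith
  refine ⟨y (Nat.pair i k), ?_, ?_⟩
  · have h2 := hy (Nat.pair i k)
    rw [Nat.unpair_pair] at h2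
    exact h2
  · have h3 : s (Nat.pair i k) * WeakDual.toStrongDual f (y (Nat.pair i k)) ≤
        |WeakDual.toStrongDual f (y (Nat.pair i k))| := by
      have h4 := le_abs_self (s (Nat.pair i k) * WeakDual.toStrongDual f (y (Nat.pair i k)))
      rwa [abs_mul, hs, one_mul] at h4
    linarith

end MPbb13ef
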