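import Pool.Agent.Work.MP_bb13ef_an.TD.Stmts

/-!
Block TD, item CP2: compactness argument in the dual ball for the good functionals.
-/

set_option autoImplicit false

namespace MPbb13ef

namespace ICP2

variable {X : Type} [NormedAddCommGroup X] [NormedSpace ℝ X]

/-- The second part of `Good2` for an element of the weak dual. -/
def P (f : WeakDual ℝ X) : Prop :=
  ∀ (n : ℕ) (l : Fin n → ℝ) (g : Fin n → (X →L[ℝ] ℝ)) (a : Fin n → ℝ) (δ : ℝ),
    Small l g a δ → δ < 2 → ∀ η : ℝ, 0 < η → ∀ x : Fin n → X,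
      (∀ i, InS (g i) (a i) (x i) ∧ ‖g i‖ - η * (‖g i‖ - a i) < g i (x i)) →
      ∃ i, 1 - 3 * η ≤ |f (x i)|

theorem closed_P : IsClosed {f : WeakDual ℝ X | P f} := by
  unfold P
  simp only [Set.ofPred_forall, Set.ofPred_exists]
  refine isClosed_iInter fun n => isClosed_iInter fun l => isClosed_iInter fun g =>
    isClosed_iInter fun a => isClosed_iInter fun δ => isClosed_iInter fun _ =>
    isClosed_iInter fun _ => isClosed_iInter fun η => isClosed_iInter fun _ =>
    isClosed_iInter fun x => isClosed_iInter fun _ => isClosed_iUnion_of_finite fun i => ?_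
  exact isClosed_le continuous_const (WeakDual.eval_continuous (x i)).abs

/-- The compact sets. -/
def T (x : X) (k : ℕ) : Set (WeakDual ℝ X) :=
  (WeakDual.toStrongDual ⁻¹' Metric.closedBall 0 1 ∩ {f | P f}) ∩
    {f | ‖x‖ - 1 / ((k : ℝ) + 1) ≤ f x}

end ICP2

/-- Item CP2. -/
theorem pr_CP2 : S_CP2 := by
  intro X _ _ x h
  have hK := WeakDual.isCompact_closedBall (𝕜 := ℝ) (E := X) 0 1
  have hcl : ∀ k, IsClosed {f : WeakDual ℝ X | ‖x‖ - 1 / ((k : ℝ) + 1) ≤ f x} := fun k =>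
    isClosed_le continuous_const (WeakDual.eval_continuous x)
  have hc : ∀ k, IsCompact (ICP2.T x k) := fun k =>
    (hK.inter_right ICP2.closed_P).inter_right (hcl k)
  obtain ⟨f, hf⟩ := IsCompact.nonempty_iInter_of_sequence_nonempty_isCompact_isClosed
    (ICP2.T x) (by
      intro k f hf
      refine ⟨hf.1, ?_⟩
      have h1 : ‖x‖ - 1 / (((k + 1 : ℕ) : ℝ) + 1) ≤ f x := hf.2
      show ‖x‖ - 1 / ((k : ℝ) + 1) ≤ f x
      have h2 : 1 / (((k + 1 : ℕ) : ℝ) + 1) ≤ 1 / ((k : ℝ) + 1) := by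
        apply one_div_le_one_div_of_le (by positivity)
        push_cast
        linarith
      linarith)
    (by
      intro k
      have hk : (0 : ℝ) < 1 / ((k : ℝ) + 1) := by positivity
      obtain ⟨f, hf, hfx⟩ := h (‖x‖ - 1 / ((k : ℝ) + 1)) (by linarith)
      refine ⟨WeakDual.toStrongDual.symm f, ⟨?_, ?_⟩, hfx.le⟩
      · show WeakDual.toStrongDual (WeakDual.toStrongDual.symm f) ∈ Metric.closedBall 0 1
        rw [LinearEquiv.apply_symm_apply, mem_closedBall_zero_iff]
        exact hf.1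
      · exact hf.2)
    (hc 0) (fun k => ((WeakDual.isClosed_closedBall 0 1).inter ICP2.closed_P).inter (hcl k))
  rw [Set.mem_iInter] at hf
  have hF : ‖WeakDual.toStrongDual f‖ ≤ 1 := by
    have h1 : WeakDual.toStrongDual f ∈ Metric.closedBall 0 1 := (hf 0).1.1
    rwa [mem_closedBall_zero_iff] at h1
  refine ⟨WeakDual.toStrongDual f, ⟨hF, (hf 0).1.2⟩, ?_⟩
  refine le_antisymm ?_ ?_
  · have h1 := (WeakDual.toStrongDual f).le_opNorm x
    have h2 : ‖WeakDual.toStrongDual f‖ * ‖x‖ ≤ ‖x‖ :=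
      mul_le_of_le_one_left (norm_nonneg _) hF
    exact (le_abs_self _).trans (h1.trans h2)
  · refine le_of_forall_pos_le_add (fun ε hε => ?_)
    obtain ⟨k, hk⟩ := exists_nat_one_div_lt hε
    have h1 : ‖x‖ - 1 / ((k : ℝ) + 1) ≤ f x := (hf k).2
    show ‖x‖ ≤ f x + ε
    linarith

end MPbb13ef
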