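import Pool.Agent.Work.MP_bb13ef_an.TD.Stmts2

/-!
# Block TD, item GEN: the recursion (as in `TD/I_WP3.lean`)
-/

set_option autoImplicit false

namespace MPbb13ef

namespace IGEN

/-- The sequence of lists. -/
def Ls (mm : List ℕ → ℕ) : ℕ → List ℕ
  | 0 => []
  | n + 1 => mm (Ls mm n) :: Ls mm n

/-- The list of the signs. -/
def Ss (s : ℕ → Bool) : ℕ → List Bool
  | 0 => []
  | n + 1 => s n :: Ss s n

theorem length_Ls (mm : List ℕ → ℕ) (n : ℕ) : (Ls mm n).length = n := by
  induction n with
  | zero => rfl
  | succ n ih => simp [Ls, ih]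

theorem length_Ss (s : ℕ → Bool) (n : ℕ) : (Ss s n).length = n := by
  induction n with
  | zero => rfl
  | succ n ih => simp [Ss, ih]

theorem zip_eq (mm : List ℕ → ℕ) (s : ℕ → Bool) (n : ℕ) :
    (Ls mm n).zip (Ss s n) = ((List.range n).reverse).map fun i => (mm (Ls mm i), s i) := by
  induction n with
  | zero => rfl
  | succ n ih =>
    have h : (Ls mm (n + 1)).zip (Ss s (n + 1)) =
        (mm (Ls mm n), s n) :: (Ls mm n).zip (Ss s n) := rfl
    rw [h, ih, List.range_succ, List.reverse_append]
    rfl

end IGEN

theorem pr_GEN : S_GEN := by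
  intro Fe h0 hJ
  have hstep : ∀ L : List ℕ, (∀ S : List Bool, S.length = L.length → Fe (L.zip S)) →
      ∃ m : ℕ, ∀ S : List Bool, S.length = (m :: L).length → Fe ((m :: L).zip S) := by
    intro L hL
    obtain ⟨m, hm⟩ := hJ (List.Vector Bool L.length)
      (fun j => L.zip j.val) (fun j => hL j.val j.property)
    refine ⟨m, fun S hS => ?_⟩
    cases S with
    | nil => simp at hS
    | cons a S' =>
      have hS' : S'.length = L.length := by simpa using hS
      have := hm ⟨S', hS'⟩
      show Fe ((m, a) :: L.zip S')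
      cases a with
      | true => exact this.1
      | false => exact this.2
  choose! mm hmm using hstep
  have hgood : ∀ n, ∀ S : List Bool, S.length = (IGEN.Ls mm n).length →
      Fe ((IGEN.Ls mm n).zip S) := by
    intro n
    induction n with
    | zero =>
      intro S _
      show Fe (([] : List ℕ).zip S)
      rw [List.zip_nil_left]
      exact h0
    | succ n ih =>
      exact hmm _ ih
  refine ⟨fun i => mm (IGEN.Ls mm i), fun s n => ?_⟩
  have h := hgood n (IGEN.Ss s n) (by rw [IGEN.length_Ls, IGEN.length_Ss])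
  rw [IGEN.zip_eq] at h
  exact h

end MPbb13ef
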