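import Pool.Agent.Work.MP_bb13ef_an.TD.Stmts2
import Pool.Agent.Work.MP_bb13ef_an.ACL.Final

set_option autoImplicit false

namespace MPbb13ef

namespace ILB

variable {X : Type} [NormedAddCommGroup X] [NormedSpace ℝ X]

lemma norm_le (g : X →L[ℝ] ℝ) (b : ℝ) (hg : ‖g‖ ≤ 1) (f : X →L[ℝ] ℝ) (h : LS g b f) :
    ‖f‖ ≤ 1 := by
  rcases h with h | h | h
  · exact h.1
  · rw [h]
    exact hg
  · rw [h, norm_neg]
    exact hg

lemma det_bound (hLDT : S_LDT) (P : Set (X →L[ℝ] ℝ)) (g : X →L[ℝ] ℝ) (b : ℝ)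
    (hP1 : ∀ t ∈ P, ‖t‖ ≤ 1) (hgP : g ∈ P) (hb : b < 1) (hcons : Cons P)
    (e : ℕ → (X →L[ℝ] ℝ)) (hPe : P = Set.range e) (y : ℕ → X) (hy1 : ∀ k, ‖y k‖ ≤ 1)
    (hy : ∀ k, ∀ i < k, 1 - (1 / 2 : ℝ) ^ k < e i (y k)) (e' : X →L[ℝ] ℝ) (h1 : LS g b e')
    (h2 : ¬ Cons (insert (-e') P)) :
    ∃ (K : ℝ) (k0 : ℕ), 0 ≤ K ∧ ∀ k, k0 ≤ k → 1 - e' (y k) ≤ K * (1 / 2 : ℝ) ^ k := by
  obtain ⟨T, C, hT, hC, h⟩ := hLDT X P g e' b hP1 hgP hb hcons h1 h2
  have h3 : ∀ t : X →L[ℝ] ℝ, ∃ i : ℕ, t ∈ T → e i = t := by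
    intro t
    by_cases ht : t ∈ T
    · have : t ∈ P := hT (by simpa using ht)
      rw [hPe] at this
      obtain ⟨i, hi⟩ := this
      exact ⟨i, fun _ => hi⟩
    · exact ⟨0, fun h => absurd h ht⟩
  choose q hq using h3
  refine ⟨C * T.card, T.sup q + 1, by positivity, ?_⟩
  intro k hk
  have h4 : ∀ t ∈ T, 1 - t (y k) ≤ (1 / 2 : ℝ) ^ k := by
    intro t ht
    have h5 : q t < k := by
      have : q t ≤ T.sup q := Finset.le_sup ht
      omega
    have h6 := hy k (q t) h5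
    rw [hq t ht] at h6
    linarith
  have h7 : ∑ t ∈ T, (1 - t (y k)) ≤ T.card * (1 / 2 : ℝ) ^ k := by
    have := Finset.sum_le_card_nsmul T (fun t => 1 - t (y k)) ((1 / 2 : ℝ) ^ k) h4
    simpa [nsmul_eq_mul] using this
  have h8 := h (y k) (hy1 k)
  calc 1 - e' (y k) ≤ C * ∑ t ∈ T, (1 - t (y k)) := h8
    _ ≤ C * (T.card * (1 / 2 : ℝ) ^ k) := mul_le_mul_of_nonneg_left h7 hC.le
    _ = C * T.card * (1 / 2 : ℝ) ^ k := by ring

end ILB

theorem pr_LB : S_LB := by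
  classical
  intro hLDT X _ _ _ D P g b hLS hneg hbdry hg hb hgP hC0 hExt hU
  obtain ⟨-, hPD, hPc, hcons⟩ := hExt
  obtain ⟨e, hPe⟩ := hPc.exists_eq_range ⟨g, hgP⟩
  have hD1 : ∀ f ∈ D, ‖f‖ ≤ 1 := fun f hf => ILB.norm_le g b hg f (hLS f hf)
  have hP1 : ∀ t ∈ P, ‖t‖ ≤ 1 := fun t ht => hD1 t (hPD ht)
  -- the sequence
  have hex : ∀ k : ℕ, ∃ x : X, ‖x‖ ≤ 1 ∧ ∀ i < k, 1 - (1 / 2 : ℝ) ^ k < e i x := by
    intro k
    obtain ⟨x, hx1, hx2⟩ := hcons ((Finset.range k).image e) (by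
      intro t ht
      rw [hPe]
      simp only [Finset.coe_image, Set.mem_image] at ht
      obtain ⟨i, -, hi⟩ := ht
      exact ⟨i, hi⟩) ((1 / 2 : ℝ) ^ k) (by positivity)
    refine ⟨x, hx1, fun i hi => hx2 (e i) ?_⟩
    exact Finset.mem_image_of_mem e (Finset.mem_range.mpr hi)
  choose y hy1 hy using hex
  -- elements of D
  have hD : ∀ f ∈ D, ∃ (σ K : ℝ) (k0 : ℕ), (σ = 1 ∨ σ = -1) ∧ 0 ≤ K ∧
      ∀ k, k0 ≤ k → |σ - f (y k)| ≤ K * (1 / 2 : ℝ) ^ k := by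
    intro f hf
    have h4 : f ∉ Und D P := by
      rw [hU]; exact Set.notMem_empty _
    by_cases h5 : Cons (insert f P)
    · have h6 : ¬ Cons (insert (-f) P) := fun h7 => h4 ⟨hf, h5, h7⟩
      obtain ⟨K, k0, hK, h⟩ := ILB.det_bound hLDT P g b hP1 hgP hb hcons e hPe y hy1 hy f
        (hLS f hf) h6
      refine ⟨1, K, k0, Or.inl rfl, hK, fun k hk => ?_⟩
      have h8 := B.le_one_of f (hD1 f hf) (y k) (hy1 k)
      rw [abs_le] at h8
      rw [abs_of_nonneg (by linarith [h8.2])]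
      exact h k hk
    · obtain ⟨K, k0, hK, h⟩ := ILB.det_bound hLDT P g b hP1 hgP hb hcons e hPe y hy1 hy (-f)
        (hLS _ (hneg f hf)) (by rwa [neg_neg])
      refine ⟨-1, K, k0, Or.inr rfl, hK, fun k hk => ?_⟩
      have h8 := B.le_one_of f (hD1 f hf) (y k) (hy1 k)
      rw [abs_le] at h8
      have h9 := h k hk
      rw [_root_.neg_apply] at h9
      rw [abs_of_nonpos (by linarith [h8.1])]
      linarith
  have hsumD : ∀ f ∈ D, Summable fun k => |f (y (k + 1) - y k)| := by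
    intro f hf
    obtain ⟨σ, K, k0, -, hK, h⟩ := hD f hf
    rw [← summable_nat_add_iff k0]
    have hgs : Summable fun k : ℕ => 2 * K * (1 / 2 : ℝ) ^ k :=
      (summable_geometric_of_lt_one (by norm_num) (by norm_num)).mul_left _
    refine Summable.of_nonneg_of_le (fun k => abs_nonneg _) (fun k => ?_) hgs
    have h1 := h (k + k0 + 1) (by omega)
    have h2 := h (k + k0) (by omega)
    have h3 : (1 / 2 : ℝ) ^ (k + k0 + 1) ≤ (1 / 2 : ℝ) ^ k :=
      pow_le_pow_of_le_one (by norm_num) (by norm_num) (by omega)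
    have h4 : (1 / 2 : ℝ) ^ (k + k0) ≤ (1 / 2 : ℝ) ^ k :=
      pow_le_pow_of_le_one (by norm_num) (by norm_num) (by omega)
    have h5 : K * (1 / 2 : ℝ) ^ (k + k0 + 1) ≤ K * (1 / 2 : ℝ) ^ k :=
      mul_le_mul_of_nonneg_left h3 hK
    have h6 : K * (1 / 2 : ℝ) ^ (k + k0) ≤ K * (1 / 2 : ℝ) ^ k :=
      mul_le_mul_of_nonneg_left h4 hK
    rw [map_sub]
    rw [abs_le] at h1 h2 ⊢
    constructor <;> linarith [h1.1, h1.2, h2.1, h2.2]
  have hcauchy : CauchySeq y := by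
    by_contra hn
    obtain ⟨δ, a, c, hδ, hab, hba, hz⟩ := prf_CAU X y hn
    refine hC0 (prf_F X D (fun n => y (c n) - y (a n)) δ hbdry hδ hz ?_)
    intro f hf
    have h1 := prf_INT (fun k => f (y k)) a c (by
      have h2 := hsumD f hf
      refine h2.congr (fun k => ?_)
      rw [map_sub]) hab hba
    refine h1.congr (fun n => ?_)
    rw [map_sub]
  obtain ⟨y0, hy0⟩ := cauchySeq_tendsto_of_complete hcauchy
  have hgeo : Filter.Tendsto (fun k : ℕ => (1 / 2 : ℝ) ^ k) Filter.atTop (nhds 0) :=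
    tendsto_pow_atTop_nhds_zero_of_lt_one (by norm_num) (by norm_num)
  have hlim : ∀ (f : X →L[ℝ] ℝ) (σ K : ℝ) (k0 : ℕ),
      (∀ k, k0 ≤ k → |σ - f (y k)| ≤ K * (1 / 2 : ℝ) ^ k) → f y0 = σ := by
    intro f σ K k0 h
    have h1 : Filter.Tendsto (fun k => f (y k)) Filter.atTop (nhds (f y0)) :=
      (f.continuous.tendsto y0).comp hy0
    have h2 : Filter.Tendsto (fun k => f (y k)) Filter.atTop (nhds σ) := by
      rw [tendsto_iff_norm_sub_tendsto_zero]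
      refine squeeze_zero' (g := fun k : ℕ => K * (1 / 2 : ℝ) ^ k)
        (Filter.Eventually.of_forall fun k => norm_nonneg _) ?_ ?_
      · filter_upwards [Filter.eventually_ge_atTop k0] with k hk
        have h3 := h k hk
        rw [Real.norm_eq_abs, abs_sub_comm]
        exact h3
      · simpa using hgeo.const_mul K
    exact tendsto_nhds_unique h1 h2
  refine ⟨y0, ⟨?_, ?_⟩, ?_⟩
  · exact le_of_tendsto (hy0.norm) (Filter.Eventually.of_forall fun k => hy1 k)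
  · intro f hf
    obtain ⟨σ, K, k0, hσ, hK, h⟩ := hD f hf
    rw [hlim f σ K k0 h]
    rcases hσ with hσ | hσ <;> rw [hσ] <;> norm_num
  · intro f hf
    have hf' := hf
    rw [hPe] at hf'
    obtain ⟨i, hi⟩ := hf'
    refine hlim f 1 1 (i + 1) (fun k hk => ?_)
    have h1 := hy k i (by omega)
    rw [hi] at h1
    have h2 := B.le_one_of f (hP1 f hf) (y k) (hy1 k)
    rw [abs_le] at h2
    rw [abs_of_nonneg (by linarith [h2.2])]
    linarith

end MPbb13ef
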