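import Pool.Agent.Work.MP_bb13ef_an.TD.Stmts2
import Pool.Agent.Work.MP_bb13ef_an.Bd.B01

set_option autoImplicit false

namespace MPbb13ef

namespace ILDT

variable {X : Type} [NormedAddCommGroup X] [NormedSpace ℝ X]

theorem le_one (t : X →L[ℝ] ℝ) (ht : ‖t‖ ≤ 1) (x : X) (hx : ‖x‖ ≤ 1) : |t x| ≤ 1 := by
  have h1 : |t x| ≤ ‖t‖ * ‖x‖ := by
    have h := t.le_opNorm x
    rwa [Real.norm_eq_abs] at h
  have h2 : ‖t‖ * ‖x‖ ≤ 1 * 1 := mul_le_mul ht hx (norm_nonneg _) (by norm_num)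
  linarith

theorem near (t : X →L[ℝ] ℝ) (ht : ‖t‖ ≤ 1) (x u : X) (η : ℝ) (h : ‖x - u‖ < η) :
    |t x - t u| ≤ η := by
  have h1 : |t (x - u)| ≤ ‖t‖ * ‖x - u‖ := by
    have h := t.le_opNorm (x - u)
    rwa [Real.norm_eq_abs] at h
  have h2 : ‖t‖ * ‖x - u‖ ≤ 1 * ‖x - u‖ := mul_le_mul_of_nonneg_right ht (norm_nonneg _)
  rw [map_sub] at h1
  linarith

theorem expand (t : X →L[ℝ] ℝ) (y z u : X) (l m k : ℝ) :
    t (l • y - m • z + k • u) = l * t y - m * t z + k * t u := by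
  simp [map_sub, map_add]

/-- the main case -/
theorem main (P : Set (X →L[ℝ] ℝ)) (g e : X →L[ℝ] ℝ) (b : ℝ) (hP : ∀ t ∈ P, ‖t‖ ≤ 1)
    (hg : g ∈ P) (hb : b < 1) (hSp : LSp g b e) (hC : ¬ Cons (insert (-e) P)) :
    ∃ (T : Finset (X →L[ℝ] ℝ)) (C : ℝ), (T : Set (X →L[ℝ] ℝ)) ⊆ P ∧ 0 < C ∧
      ∀ x : X, ‖x‖ ≤ 1 → 1 - e x ≤ C * ∑ t ∈ T, (1 - t x) := by
  classical
  unfold Cons at hC
  push Not at hC
  obtain ⟨T', hT', ε₀, hε₀, hbad⟩ := hC
  obtain ⟨ε, hεdef⟩ : ∃ ε : ℝ, ε = min ε₀ 1 := ⟨_, rfl⟩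
  have hε : 0 < ε := by rw [hεdef]; exact lt_min hε₀ one_pos
  have hεε : ε ≤ ε₀ := by rw [hεdef]; exact min_le_left _ _
  obtain ⟨κ, hκdef⟩ : ∃ κ : ℝ, κ = min ε (1 - b) := ⟨_, rfl⟩
  have hκ : 0 < κ := by rw [hκdef]; exact lt_min hε (by linarith)
  have hκε : κ ≤ ε := by rw [hκdef]; exact min_le_left _ _
  have hκb : κ ≤ 1 - b := by rw [hκdef]; exact min_le_right _ _
  obtain ⟨T, hTdef⟩ : ∃ T : Finset (X →L[ℝ] ℝ), T = insert g (T'.erase (-e)) := ⟨_, rfl⟩
  have hsub : (T : Set (X →L[ℝ] ℝ)) ⊆ P := by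
    intro t ht
    rw [Finset.mem_coe, hTdef, Finset.mem_insert, Finset.mem_erase] at ht
    rcases ht with h | ht
    · rw [h]
      exact hg
    · rcases hT' (Finset.mem_coe.2 ht.2) with h | h
      · exact absurd h ht.1
      · exact h
  have hgT : g ∈ T := by
    rw [hTdef]
    exact Finset.mem_insert_self _ _
  refine ⟨T, 2 / κ, hsub, by positivity, ?_⟩
  intro x hx
  obtain ⟨S, hSdef⟩ : ∃ S : ℝ, S = ∑ t ∈ T, (1 - t x) := ⟨_, rfl⟩
  obtain ⟨n, hndef⟩ : ∃ n : ℝ, n = (T.card : ℝ) := ⟨_, rfl⟩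
  have hn0 : 0 ≤ n := by rw [hndef]; exact Nat.cast_nonneg _
  rw [← hSdef]
  have key : ∀ η : ℝ, 0 < η → η < ε → 1 - e x ≤ 2 / κ * (S + n * η) + 2 * η := by
    intro η hη hηε
    obtain ⟨y, z, u, l, m, k, hy, hz, hu, hey, hez, hgu, hl0, hm0, hk0, hsum1, hxy⟩ :=
      hSp.2 x hx η hη
    have hmz : ‖-z‖ ≤ 1 := by rwa [norm_neg]
    obtain ⟨t0, ht0, ht0z⟩ := hbad (-z) hmz
    have ht0e : t0 ≠ -e := by
      rintro rfl
      have h1 : (-e : X →L[ℝ] ℝ) (-z) = e z := by simp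
      rw [h1] at ht0z
      linarith
    have ht0T : t0 ∈ T := by
      rw [hTdef]
      exact Finset.mem_insert_of_mem (Finset.mem_erase.2 ⟨ht0e, ht0⟩)
    have hpt : ∀ t ∈ T, m * (1 + t z) + k * (1 - t u) - η ≤ 1 - t x := by
      intro t ht
      have htP : t ∈ P := hsub (Finset.mem_coe.2 ht)
      have h1 := near t (hP t htP) x _ η hxy
      rw [expand] at h1
      have h3 := (abs_le.1 h1).2
      have h4 := (abs_le.1 (le_one t (hP t htP) y hy)).2
      have h5 := mul_nonneg hl0 (sub_nonneg.2 h4)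
      have h6 : l * (1 - t y) + m * (1 + t z) + k * (1 - t u) =
          (l + m + k) - (l * t y - m * t z + k * t u) := by ring
      rw [hsum1] at h6
      linarith
    have hnn : ∀ t ∈ T, 0 ≤ 1 + t z := by
      intro t ht
      have htP : t ∈ P := hsub (Finset.mem_coe.2 ht)
      have h4 := (abs_le.1 (le_one t (hP t htP) z hz)).1
      linarith
    have hnn2 : ∀ t ∈ T, 0 ≤ 1 - t u := by
      intro t ht
      have htP : t ∈ P := hsub (Finset.mem_coe.2 ht)
      have h4 := (abs_le.1 (le_one t (hP t htP) u hu)).2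
      linarith
    have hsum : m * ∑ t ∈ T, (1 + t z) + k * ∑ t ∈ T, (1 - t u) - n * η ≤ S := by
      have h := Finset.sum_le_sum hpt
      rw [Finset.sum_sub_distrib, Finset.sum_add_distrib, ← Finset.mul_sum, ← Finset.mul_sum,
        Finset.sum_const, nsmul_eq_mul] at h
      rw [hSdef, hndef]
      exact h
    have hbig : ε ≤ ∑ t ∈ T, (1 + t z) := by
      have h1 : 1 + t0 z ≤ ∑ t ∈ T, (1 + t z) :=
        Finset.single_le_sum (f := fun t : X →L[ℝ] ℝ => 1 + t z) hnn ht0T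
      have h2 : t0 (-z) = -(t0 z) := map_neg _ _
      rw [h2] at ht0z
      linarith
    have hbig2 : 1 - b ≤ ∑ t ∈ T, (1 - t u) := by
      have h1 : 1 - g u ≤ ∑ t ∈ T, (1 - t u) :=
        Finset.single_le_sum (f := fun t : X →L[ℝ] ℝ => 1 - t u) hnn2 hgT
      linarith
    have hmk : (m + k) * κ ≤ S + n * η := by
      have h1 : m * κ ≤ m * ∑ t ∈ T, (1 + t z) :=
        mul_le_mul_of_nonneg_left (hκε.trans hbig) hm0
      have h2 : k * κ ≤ k * ∑ t ∈ T, (1 - t u) :=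
        mul_le_mul_of_nonneg_left (hκb.trans hbig2) hk0
      have h3 : (m + k) * κ = m * κ + k * κ := by ring
      linarith
    have hmk2 : m + k ≤ (S + n * η) / κ := by
      rw [le_div_iff₀ hκ]
      exact hmk
    have hex : 1 - e x ≤ 2 * (m + k) + 2 * η := by
      have h1 := near e hSp.1 x _ η hxy
      rw [expand] at h1
      have h3 := (abs_le.1 h1).1
      have h4 := (abs_le.1 (le_one e hSp.1 z hz)).2
      have h5 := (abs_le.1 (le_one e hSp.1 u hu)).1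
      have h6 : l * (1 - e y) + m * (1 + e z) + k * (1 - e u) =
          (l + m + k) - (l * e y - m * e z + k * e u) := by ring
      rw [hsum1] at h6
      have h7 : l * (1 - e y) ≤ 1 * η := by
        have hl1 : l ≤ 1 := by linarith
        calc l * (1 - e y) ≤ l * η := mul_le_mul_of_nonneg_left (by linarith) hl0
          _ ≤ 1 * η := mul_le_mul_of_nonneg_right hl1 hη.le
      have h8 : m * (1 + e z) ≤ m * 2 := mul_le_mul_of_nonneg_left (by linarith) hm0
      have h9 : k * (1 - e u) ≤ k * 2 := mul_le_mul_of_nonneg_left (by linarith) hk0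
      linarith
    have h5 : 2 / κ * (S + n * η) = 2 * ((S + n * η) / κ) := by ring
    rw [h5]
    linarith
  refine le_of_forall_pos_le_add fun δ hδ => ?_
  have hK : 0 < 2 / κ * n + 2 := by positivity
  obtain ⟨η, hηdef⟩ : ∃ η : ℝ, η = min (ε / 2) (δ / (2 / κ * n + 2)) := ⟨_, rfl⟩
  have hη : 0 < η := by rw [hηdef]; exact lt_min (by positivity) (by positivity)
  have hη1 : η < ε := by
    rw [hηdef]
    exact lt_of_le_of_lt (min_le_left _ _) (by linarith)
  have hη2 : η ≤ δ / (2 / κ * n + 2) := by rw [hηdef]; exact min_le_right _ _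
  have h1 := key η hη hη1
  have h2 : η * (2 / κ * n + 2) ≤ δ := by
    rwa [le_div_iff₀ hK] at hη2
  have h3 : 2 / κ * (S + n * η) + 2 * η = 2 / κ * S + η * (2 / κ * n + 2) := by ring
  linarith

end ILDT

theorem pr_LDT : S_LDT := by
  intro X _ _ P g e b hP hg hb hCons hLS hC
  rcases hLS with h | h | h
  · exact ILDT.main P g e b hP hg hb h hC
  · refine ⟨{g}, 1, ?_, one_pos, ?_⟩
    · intro t ht
      rw [Finset.coe_singleton, Set.mem_singleton_iff] at ht
      rw [ht]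
      exact hg
    · intro x _
      rw [Finset.sum_singleton, one_mul, h]
  · exfalso
    apply hC
    rw [h, neg_neg, Set.insert_eq_of_mem hg]
    exact hCons

end MPbb13ef
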