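import Pool.Agent.Work.MP_bb13ef_an.TD.Stmts
import Pool.Agent.Work.MP_bb13ef_an.Bd.B02

/-!
# Item LG: independent sequences with a gap give a copy of `ℓ₁`
-/

set_option autoImplicit false

open scoped ZeroAtInfty

namespace MPbb13ef

open L1E in
theorem pr_LG : S_LG := by
  intro X _ _ _ x l h hlh hx hind
  have hnorm : ∀ a : lp (fun _ : ℕ => ℝ) 1, ∀ n, ‖a n • x n‖ ≤ |a n| := by
    intro a n
    rw [norm_smul, Real.norm_eq_abs]
    exact mul_le_of_le_one_right (abs_nonneg _) (hx n)
  have hsum : ∀ a : lp (fun _ : ℕ => ℝ) 1, Summable fun n => a n • x n := fun a =>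
    Summable.of_norm_bounded (hasSum_abs a).summable (hnorm a)
  let L : lp (fun _ : ℕ => ℝ) 1 →ₗ[ℝ] X :=
    { toFun := fun a => ∑' n, a n • x n
      map_add' := by
        intro a b
        rw [← (hsum a).tsum_add (hsum b)]
        congr 1
        funext n
        simp [add_smul]
      map_smul' := by
        intro r a
        simp only [RingHom.id_apply]
        rw [← (hsum a).tsum_const_smul r]
        congr 1
        funext n
        simp [mul_smul] }
  have hL : ∀ a, ‖L a‖ ≤ 1 * ‖a‖ := by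
    intro a
    rw [one_mul]
    exact tsum_of_norm_bounded (hasSum_abs a) (hnorm a)
  have hc : 0 < (h - l) / 2 := by linarith
  refine ⟨L.mkContinuous 1 hL, (h - l) / 2, hc, ?_⟩
  intro a
  have h1 : Filter.Tendsto (fun n => ‖∑ i ∈ Finset.range n, a i • x i‖) Filter.atTop
      (nhds ‖L.mkContinuous 1 hL a‖) := by
    have := (hsum a).hasSum.tendsto_sum_nat
    exact this.norm
  have h2 : Filter.Tendsto (fun n => (h - l) / 2 * ∑ i ∈ Finset.range n, |a i|) Filter.atTop
      (nhds ((h - l) / 2 * ‖a‖)) := ((hasSum_abs a).tendsto_sum_nat).const_mul _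
  refine le_of_tendsto_of_tendsto' h2 h1 ?_
  intro n
  obtain ⟨g, hg, hs⟩ := hind n (fun i => decide (0 ≤ a i))
  obtain ⟨g', hg', hs'⟩ := hind n (fun i => !decide (0 ≤ a i))
  have he : ‖(1 / 2 : ℝ) • (g - g')‖ ≤ 1 := by
    rw [norm_smul, Real.norm_of_nonneg (by norm_num : (0 : ℝ) ≤ 1 / 2)]
    have := norm_sub_le g g'
    linarith
  have hse : ∀ i ∈ Finset.range n, (h - l) / 2 ≤
      sg (decide (0 ≤ a i)) * ((1 / 2 : ℝ) • (g - g')) (x i) := by
    intro i hi
    have e1 := hs i (Finset.mem_range.mp hi)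
    have e2 := hs' i (Finset.mem_range.mp hi)
    have e3 : ((1 / 2 : ℝ) • (g - g')) (x i) = (g (x i) - g' (x i)) / 2 := by
      rw [smul_apply, sub_apply, smul_eq_mul]
      ring
    rw [e3]
    unfold sg
    by_cases h0 : 0 ≤ a i
    · simp only [h0, decide_true, if_true, Bool.not_true] at e1 e2 ⊢
      simp only [Bool.false_eq_true, if_false] at e2
      linarith
    · simp only [h0, decide_false, Bool.not_false, if_true] at e1 e2 ⊢
      simp only [Bool.false_eq_true, if_false] at e1 ⊢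
      linarith
  calc (h - l) / 2 * ∑ i ∈ Finset.range n, |a i|
      = ∑ i ∈ Finset.range n, |a i| * ((h - l) / 2) := by
        rw [Finset.mul_sum]; congr 1; funext i; ring
    _ ≤ ∑ i ∈ Finset.range n, |a i| *
          (sg (decide (0 ≤ a i)) * ((1 / 2 : ℝ) • (g - g')) (x i)) := by
        refine Finset.sum_le_sum fun i hi => ?_
        exact mul_le_mul_of_nonneg_left (hse i hi) (abs_nonneg _)
    _ = ((1 / 2 : ℝ) • (g - g')) (∑ i ∈ Finset.range n, a i • x i) := by
        rw [map_sum]
        refine Finset.sum_congr rfl fun i _ => ?_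
        rw [map_smul, smul_eq_mul, ← mul_assoc, sg_mul]
    _ ≤ ‖((1 / 2 : ℝ) • (g - g')) (∑ i ∈ Finset.range n, a i • x i)‖ := le_abs_self _
    _ ≤ ‖(1 / 2 : ℝ) • (g - g')‖ * ‖∑ i ∈ Finset.range n, a i • x i‖ :=
        ContinuousLinearMap.le_opNorm _ _
    _ ≤ ‖∑ i ∈ Finset.range n, a i • x i‖ :=
        mul_le_of_le_one_left (norm_nonneg _) he

end MPbb13ef
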