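import Pool.Agent.Work.MP_bb13ef_an.TD.Stmts2

/-!
[bb13ef TD2] item LHU: good functionals of norm one are local spears.
-/

set_option autoImplicit false

namespace MPbb13ef

namespace ILHU

variable {X : Type} [NormedAddCommGroup X] [NormedSpace ℝ X]

theorem exists_gt (g : X →L[ℝ] ℝ) (c : ℝ) (hc : c < ‖g‖) : ∃ x : X, ‖x‖ ≤ 1 ∧ c < g x := by
  obtain ⟨x, hx, hcx⟩ := ContinuousLinearMap.exists_lt_apply_of_lt_opNorm g hc
  rw [Real.norm_eq_abs] at hcx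
  rcases lt_abs.1 hcx with h | h
  · exact ⟨x, hx.le, h⟩
  · refine ⟨-x, ?_, ?_⟩
    · rw [norm_neg]
      exact hx.le
    · rw [map_neg]
      exact h

theorem le_norm (g : X →L[ℝ] ℝ) {x : X} (hx : ‖x‖ ≤ 1) : g x ≤ ‖g‖ := by
  have h1 : ‖g x‖ ≤ ‖g‖ * ‖x‖ := g.le_opNorm x
  rw [Real.norm_eq_abs] at h1
  have h2 : ‖g‖ * ‖x‖ ≤ ‖g‖ * 1 := mul_le_mul_of_nonneg_left hx (norm_nonneg _)
  rw [mul_one] at h2
  exact le_trans (le_abs_self _) (le_trans h1 h2)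

theorem deep (g : X →L[ℝ] ℝ) (a η : ℝ) (hη : 0 < η) (h : ∃ x, InS g a x) :
    ∃ x, InS g a x ∧ ‖g‖ - η * (‖g‖ - a) < g x := by
  obtain ⟨x0, hx0⟩ := h
  have h1 : a < ‖g‖ := lt_of_lt_of_le hx0.2 (le_norm g hx0.1)
  have h2 : ‖g‖ - η * (‖g‖ - a) < ‖g‖ := by
    have : 0 < η * (‖g‖ - a) := mul_pos hη (sub_pos.2 h1)
    linarith
  obtain ⟨x, hx, hcx⟩ := exists_gt g (max a (‖g‖ - η * (‖g‖ - a))) (max_lt h1 h2)
  exact ⟨x, ⟨hx, lt_of_le_of_lt (le_max_left _ _) hcx⟩, lt_of_le_of_lt (le_max_right _ _) hcx⟩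

/-- The slice `{1 - η < f}` of the ball. -/
def A1 (f : X →L[ℝ] ℝ) (η : ℝ) : Set X := {y | ‖y‖ ≤ 1 ∧ 1 - η < f y}

/-- The slice `{f < -(1 - η)}` of the ball. -/
def A2 (f : X →L[ℝ] ℝ) (η : ℝ) : Set X := {y | ‖y‖ ≤ 1 ∧ 1 - η < -f y}

/-- The part `{g ≤ b}` of the ball. -/
def A3 (g : X →L[ℝ] ℝ) (b : ℝ) : Set X := {y | ‖y‖ ≤ 1 ∧ g y ≤ b}

theorem ball_comb {y z : X} {s t : ℝ} (hy : ‖y‖ ≤ 1) (hz : ‖z‖ ≤ 1) (hs : 0 ≤ s) (ht : 0 ≤ t)
    (hst : s + t = 1) : ‖s • y + t • z‖ ≤ 1 := by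
  have h1 : ‖s • y + t • z‖ ≤ ‖s • y‖ + ‖t • z‖ := norm_add_le _ _
  rw [norm_smul, norm_smul, Real.norm_eq_abs, Real.norm_eq_abs, abs_of_nonneg hs,
    abs_of_nonneg ht] at h1
  have h2 : s * ‖y‖ ≤ s * 1 := mul_le_mul_of_nonneg_left hy hs
  have h3 : t * ‖z‖ ≤ t * 1 := mul_le_mul_of_nonneg_left hz ht
  linarith

theorem conv1 (f : X →L[ℝ] ℝ) (η : ℝ) : Convex ℝ (A1 f η) := by
  intro y hy z hz s t hs ht hst
  refine ⟨ball_comb hy.1 hz.1 hs ht hst, ?_⟩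
  rw [map_add, map_smul, map_smul, smul_eq_mul, smul_eq_mul]
  have h1 := hy.2
  have h2 := hz.2
  have h3 : t = 1 - s := by linarith
  rcases hs.eq_or_lt with h | h
  · rw [← h, h3, ← h]
    linarith
  · have h4 : s * (1 - η) < s * f y := mul_lt_mul_of_pos_left h1 h
    have h5 : t * (1 - η) ≤ t * f z := mul_le_mul_of_nonneg_left h2.le ht
    have h6 : s * (1 - η) + t * (1 - η) = 1 - η := by rw [← add_mul, hst, one_mul]
    linarith

theorem conv2 (f : X →L[ℝ] ℝ) (η : ℝ) : Convex ℝ (A2 f η) := by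
  intro y hy z hz s t hs ht hst
  refine ⟨ball_comb hy.1 hz.1 hs ht hst, ?_⟩
  rw [map_add, map_smul, map_smul, smul_eq_mul, smul_eq_mul]
  have h1 := hy.2
  have h2 := hz.2
  rcases hs.eq_or_lt with h | h
  · have h3 : t = 1 := by linarith
    rw [← h, h3]
    linarith
  · have h4 : s * (1 - η) < s * (-f y) := mul_lt_mul_of_pos_left h1 h
    have h5 : t * (1 - η) ≤ t * (-f z) := mul_le_mul_of_nonneg_left h2.le ht
    have h6 : s * (1 - η) + t * (1 - η) = 1 - η := by rw [← add_mul, hst, one_mul]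
    linarith

theorem conv3 (g : X →L[ℝ] ℝ) (b : ℝ) : Convex ℝ (A3 g b) := by
  intro y hy z hz s t hs ht hst
  refine ⟨ball_comb hy.1 hz.1 hs ht hst, ?_⟩
  rw [map_add, map_smul, map_smul, smul_eq_mul, smul_eq_mul]
  have h4 : s * g y ≤ s * b := mul_le_mul_of_nonneg_left hy.2 hs
  have h5 : t * g z ≤ t * b := mul_le_mul_of_nonneg_left hz.2 ht
  have h6 : s * b + t * b = b := by rw [← add_mul, hst, one_mul]
  linarith

theorem dense (g f : X →L[ℝ] ℝ) (b : ℝ) (hloc : LocT g b) (hgood : Good2 f)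
    (x0 : X) (hx0 : ‖x0‖ ≤ 1) (η : ℝ) (hη : 0 < η) :
    x0 ∈ closure (convexHull ℝ ((A1 f η ∪ A2 f η) ∪ A3 g b)) := by
  by_contra hz
  obtain ⟨h, c, hc, hzc⟩ := geometric_hahn_banach_closed_point
    (convex_convexHull ℝ _).closure isClosed_closure hz
  have hsub : ∀ y ∈ (A1 f η ∪ A2 f η) ∪ A3 g b, h y < c := fun y hy =>
    hc y (subset_closure (subset_convexHull ℝ _ hy))
  have h3 : ∀ y, InS h c y → b < g y := by
    intro y hy
    by_contra hgy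
    push Not at hgy
    have := hsub y (Or.inr ⟨hy.1, hgy⟩)
    have := hy.2
    linarith
  obtain ⟨n, l, k, a, δ, hs, hδ, hk⟩ := hloc h c ⟨x0, hx0, hzc⟩ h3
  have hη4 : 0 < η / 4 := by linarith
  choose x hx using fun i => deep (k i) (a i) (η / 4) hη4 (hs.2.2.1 i)
  obtain ⟨i, hi⟩ := hgood.2 n l k a δ hs hδ (η / 4) hη4 x hx
  have h1 : 1 - η < |f (x i)| := by linarith
  have h2 : h (x i) < c := by
    rcases lt_abs.1 h1 with h4 | h4
    · exact hsub _ (Or.inl (Or.inl ⟨(hx i).1.1, h4⟩))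
    · exact hsub _ (Or.inl (Or.inr ⟨(hx i).1.1, h4⟩))
  have h5 := hk i (x i) (hx i).1
  linarith

end ILHU

theorem pr_LHU : S_LHU := by
  intro X _ _ g f b hb hloc hgood hf1
  refine ⟨hf1.le, fun x hx η hη => ?_⟩
  have hcl := ILHU.dense g f b hloc hgood x hx η hη
  obtain ⟨p, hp, hxp⟩ := Metric.mem_closure_iff.1 hcl η hη
  have hn1 : (ILHU.A1 f η).Nonempty := by
    obtain ⟨y, hy, hy2⟩ := ILHU.exists_gt f (1 - η) (by rw [hf1]; linarith)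
    exact ⟨y, hy, hy2⟩
  have hn2 : (ILHU.A2 f η).Nonempty := by
    obtain ⟨y, hy, hy2⟩ := hn1
    refine ⟨-y, ?_, ?_⟩
    · rw [norm_neg]
      exact hy
    · rw [map_neg, neg_neg]
      exact hy2
  have hn3 : (ILHU.A3 g b).Nonempty := by
    refine ⟨0, ?_, ?_⟩
    · rw [norm_zero]
      exact zero_le_one
    · rw [map_zero]
      exact hb
  rw [convexHull_union (hn1.mono Set.subset_union_left) hn3, (ILHU.conv3 g b).convexHull_eq,
    convexHull_union hn1 hn2, (ILHU.conv1 f η).convexHull_eq, (ILHU.conv2 f η).convexHull_eq] at hp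
  obtain ⟨q, hq, u, hu, hpq⟩ := mem_convexJoin.1 hp
  obtain ⟨y, hy, z, hz, hqs⟩ := mem_convexJoin.1 hq
  obtain ⟨s, t, hs, ht, hst, hpe⟩ := hpq
  obtain ⟨s', t', hs', ht', hst', hqe⟩ := hqs
  refine ⟨y, -z, u, s * s', s * t', t, hy.1, ?_, hu.1, hy.2, ?_, hu.2, mul_nonneg hs hs',
    mul_nonneg hs ht', ht, ?_, ?_⟩
  · rw [norm_neg]
    exact hz.1
  · rw [map_neg]
    exact hz.2
  · rw [← mul_add, hst', mul_one, hst]
  · have h1 : (s * s') • y - (s * t') • -z + t • u = p := by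
      rw [← hpe, ← hqe, smul_neg, sub_neg_eq_add, smul_add, smul_smul, smul_smul]
    rw [h1, ← dist_eq_norm]
    exact hxp

end MPbb13ef
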