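import Pool.Agent.Work.MP_bb13ef_an.TD.Stmts2
import Pool.Agent.Work.MP_bb13ef_an.Bd.B01

/-!
# Block TD, item LL4: an undetermined functional gives an independent sequence
-/

set_option autoImplicit false

namespace MPbb13ef

namespace ILL4

variable {X : Type} [NormedAddCommGroup X] [NormedSpace ℝ X]

/-- the invariant -/
def G (D P : Set (X →L[ℝ] ℝ)) (d : ℕ → X) (ks : List ℕ) : Prop :=
  ∀ bs : List Bool, bs.length = ks.length → (UB d (ks.zip bs) ∩ Und D P).Nonempty

theorem near {e : X →L[ℝ] ℝ} (he : ‖e‖ ≤ 1) {x y : X} (h : 1 - 1 / 4 < e x)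
    (hxy : ‖x - y‖ < 1 / 4) : 1 / 2 < e y := by
  have h1 : |e (x - y)| ≤ ‖x - y‖ := by
    have h2 := e.le_opNorm (x - y)
    rw [Real.norm_eq_abs] at h2
    refine h2.trans ?_
    exact mul_le_of_le_one_left (norm_nonneg _) he
  rw [map_sub] at h1
  have h3 := abs_le.mp h1
  linarith [h3.2]

theorem near' {e : X →L[ℝ] ℝ} (he : ‖e‖ ≤ 1) {x y : X} (h : 1 - 1 / 4 < (-e) x)
    (hxy : ‖x - y‖ < 1 / 4) : 1 / 2 < (-e) y :=
  near (e := -e) (by rw [norm_neg]; exact he) h hxy

theorem step (hEXT : S_EXT) (D P : Set (X →L[ℝ] ℝ)) (d : ℕ → X) (hSp : ∀ f ∈ D, ‖f‖ ≤ 1)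
    (hneg : ∀ f ∈ D, -f ∈ D)
    (hdense : ∀ x : X, ‖x‖ ≤ 1 → ∀ ε : ℝ, 0 < ε → ∃ n, ‖x - d n‖ < ε) (hP : Ext D P P)
    (hstab : ∀ τ, (UB d τ ∩ Und D P).Nonempty → ∀ P', Ext D P P' →
      (UB d τ ∩ Und D P').Nonempty) (ks : List ℕ) (hG : G D P d ks) :
    ∃ k, G D P d (k :: ks) := by
  classical
  obtain ⟨a, b, ha, hb, hcons⟩ := hEXT X D P hneg hP (List.Vector Bool ks.length)
    (fun j => UB d (ks.zip j.1)) (fun j P' hP' => hstab _ (hG j.1 j.2) P' hP')
  have hfin : (Set.range a ∪ Set.range fun j => -b j).Finite :=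
    (Set.finite_range a).union (Set.finite_range _)
  obtain ⟨x, hx, hx2⟩ := hcons hfin.toFinset (by
    rw [Set.Finite.coe_toFinset]
    exact Set.subset_union_right) (1 / 4) (by norm_num)
  obtain ⟨k, hk⟩ := hdense x hx (1 / 4) (by norm_num)
  refine ⟨k, fun cs hcs => ?_⟩
  match cs, hcs with
  | c :: bs, hcs =>
    have hbs : bs.length = ks.length := by
      simpa using hcs
    let j : List.Vector Bool ks.length := ⟨bs, hbs⟩
    cases c with
    | true =>
      refine ⟨a j, ?_, (ha j).2⟩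
      intro p hp
      rw [List.zip_cons_cons, List.mem_cons] at hp
      rcases hp with rfl | hp
      · have h1 : 1 - 1 / 4 < a j x := by
          refine hx2 _ ?_
          rw [Set.Finite.mem_toFinset]
          exact Or.inl ⟨j, rfl⟩
        have h2 := near (hSp _ (ha j).2.1) h1 hk
        show 1 / 2 < sg true * a j (d k)
        rw [sg, if_pos rfl, one_mul]
        exact h2
      · exact (ha j).1 p hp
    | false =>
      refine ⟨b j, ?_, (hb j).2⟩
      intro p hp
      rw [List.zip_cons_cons, List.mem_cons] at hp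
      rcases hp with rfl | hp
      · have h1 : 1 - 1 / 4 < (-b j) x := by
          refine hx2 _ ?_
          rw [Set.Finite.mem_toFinset]
          exact Or.inr ⟨j, rfl⟩
        have h2 := near' (hSp _ (hb j).2.1) h1 hk
        show 1 / 2 < sg false * b j (d k)
        rw [sg, if_neg (by decide), neg_one_mul]
        exact h2
      · exact (hb j).1 p hp

/-- the list of the first `n` signs -/
def sgns (s : ℕ → Bool) : ℕ → List Bool
  | 0 => []
  | n + 1 => s n :: sgns s n

theorem length_sgns (s : ℕ → Bool) (n : ℕ) : (sgns s n).length = n := by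
  induction n with
  | zero => rfl
  | succ n ih => rw [sgns, List.length_cons, ih]

end ILL4

open ILL4 in
theorem pr_LL4 : S_LL4 := by
  classical
  have hEXT : S_EXT := prf_EXT
  intro X _ _ D P d hSp hneg hd hdense hP hstab hne
  have hstep := step hEXT D P d hSp hneg hdense hP hstab
  have h0 : G D P d [] := by
    intro bs hbs
    obtain ⟨e, he⟩ := hne
    refine ⟨e, ?_, he⟩
    intro p hp
    rw [List.zip_nil_left] at hp
    exact absurd hp List.not_mem_nil
  choose f hf using hstep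
  let L : ℕ → {ks : List ℕ // G D P d ks} := fun n => Nat.rec ⟨[], h0⟩
    (fun _ l => ⟨f l.1 l.2 :: l.1, hf l.1 l.2⟩) n
  have hL : ∀ n, (L (n + 1)).1 = f (L n).1 (L n).2 :: (L n).1 := fun n => rfl
  have hlen : ∀ n, (L n).1.length = n := by
    intro n
    induction n with
    | zero => rfl
    | succ n ih => rw [hL, List.length_cons, ih]
  refine ⟨fun i => d (f (L i).1 (L i).2), fun n => hd _, fun n s => ?_⟩
  obtain ⟨e, he1, he2⟩ := (L n).2 (sgns s n) (by rw [length_sgns, hlen])
  refine ⟨e, he2.1, fun i hi => ?_⟩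
  refine he1 (f (L i).1 (L i).2, s i) ?_
  clear he1 he2
  induction n with
  | zero => exact absurd hi (Nat.not_lt_zero i)
  | succ n ih =>
    rw [hL, sgns, List.zip_cons_cons, List.mem_cons]
    rcases Nat.lt_succ_iff_lt_or_eq.mp hi with h | h
    · exact Or.inr (ih h)
    · subst h
      exact Or.inl rfl

end MPbb13ef
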