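import Pool.Agent.Work.MP_bb13ef_an.TD.Stmts2

/-!
# Item NOR: normalisation of slices
-/

set_option autoImplicit false

namespace MPbb13ef

theorem pr_NOR : S_NOR := by
  intro X _ _ hX h c hz
  obtain ⟨z, hz1, hz2⟩ := hz
  by_cases h0 : h = 0
  · obtain ⟨x, hx⟩ := hX
    obtain ⟨g, hg, -⟩ := exists_dual_vector ℝ x (norm_ne_zero_iff.2 hx)
    refine ⟨g, 0, hg, le_rfl, zero_lt_one, fun y hy => ⟨hy.1, ?_⟩⟩
    have h1 : c < 0 := by
      rw [h0] at hz2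
      simpa using hz2
    rw [h0]
    simpa using h1
  · have hn : 0 < ‖h‖ := norm_pos_iff.2 h0
    have hle : h z ≤ ‖h‖ := by
      calc h z ≤ ‖h z‖ := Real.le_norm_self _
        _ ≤ ‖h‖ * ‖z‖ := h.le_opNorm z
        _ ≤ ‖h‖ * 1 := mul_le_mul_of_nonneg_left hz1 hn.le
        _ = ‖h‖ := mul_one _
    refine ⟨‖h‖⁻¹ • h, max (c / ‖h‖) 0, ?_, le_max_right _ _, ?_, fun y hy => ⟨hy.1, ?_⟩⟩
    · rw [norm_smul, norm_inv, norm_norm, inv_mul_cancel₀ hn.ne']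
    · apply max_lt _ zero_lt_one
      rw [div_lt_one hn]
      exact lt_of_lt_of_le hz2 hle
    · have h1 : c / ‖h‖ < ‖h‖⁻¹ * h y := lt_of_le_of_lt (le_max_left _ _) hy.2
      rw [div_eq_inv_mul] at h1
      exact lt_of_mul_lt_mul_left h1 (inv_pos.2 hn).le

end MPbb13ef
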