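import Pool.Agent.Work.MP_bb13ef_an.TD.Stmts

/-!
# Block TD, item NRM: the spears are norming
-/

set_option autoImplicit false

namespace MPbb13ef

theorem pr_NRM : S_NRM := by
  intro hWPB hBOUF hCIT X _ _ _ _ hA hL x r hr
  obtain ⟨W, hWc, hWne, hdet⟩ := hWPB X hL
  have hB : ∀ τ : W, ∃ (n : ℕ) (l : Fin n → ℝ) (k : Fin n → (X →L[ℝ] ℝ)) (a : Fin n → ℝ),
      (∀ i, 0 ≤ l i) ∧ ∑ i, l i = 1 ∧ (∀ i, ∃ x, InS (k i) (a i) x) ∧
      ∀ x : Fin n → X, (∀ i, InS (k i) (a i) (x i)) → ∑ i, l i • x i ∈ WO τ.1 :=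
    fun τ => hBOUF X τ.1 (hWne τ.1 τ.2)
  choose n l k a hl0 hl1 hsl hcomb using hB
  have hcW : Countable W := hWc.to_subtype
  have hcI : Countable (Σ τ : W, Fin (n τ)) := inferInstance
  have hneI : Nonempty (Σ τ : W, Fin (n τ)) := by
    obtain ⟨τ, hτ, -⟩ := hdet 0 (-1) ⟨0, by simp [InS]⟩
    have hn : n ⟨τ, hτ⟩ ≠ 0 := by
      intro h0
      have h1 := hl1 ⟨τ, hτ⟩
      have h2 : ∑ i, l ⟨τ, hτ⟩ i = 0 := by
        apply Finset.sum_eq_zero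
        intro i _
        exact absurd i.2 (by omega)
      rw [h2] at h1
      exact zero_ne_one h1
    exact ⟨⟨⟨τ, hτ⟩, ⟨0, Nat.pos_of_ne_zero hn⟩⟩⟩
  obtain ⟨e, he⟩ := exists_surjective_nat (Σ τ : W, Fin (n τ))
  obtain ⟨f, hf1, hfx, hfy⟩ := hCIT X hA x (fun j => k (e j).1 (e j).2) (fun j => a (e j).1 (e j).2)
    (fun j => hsl (e j).1 (e j).2) (‖x‖ - r) (by linarith)
  have hI : ∀ (τ : W) (i : Fin (n τ)) (η : ℝ), 0 < η →
      ∃ y, InS (k τ i) (a τ i) y ∧ 1 - η < |f y| := by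
    intro τ i η hη
    obtain ⟨j, hj⟩ := he ⟨τ, i⟩
    have h1 := hfy j η hη
    rw [hj] at h1
    exact h1
  refine ⟨f, ⟨?_, ?_⟩, by linarith⟩
  · refine le_antisymm hf1 (le_of_forall_pos_le_add fun η hη => ?_)
    obtain ⟨τ, i⟩ := hneI
    obtain ⟨y, hy, hyf⟩ := hI τ i η hη
    have h1 : |f y| ≤ ‖f‖ := by
      have h2 := f.le_opNorm y
      rw [Real.norm_eq_abs] at h2
      have h3 : ‖f‖ * ‖y‖ ≤ ‖f‖ * 1 := mul_le_mul_of_nonneg_left hy.1 (norm_nonneg _)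
      linarith
    linarith
  · intro ε hε z₀ hz₀
    by_contra hcon
    obtain ⟨h, b, h1, h2⟩ := geometric_hahn_banach_closed_point
      (convex_convexHull ℝ _).closure isClosed_closure hcon
    rw [mem_closedBall_zero_iff] at hz₀
    obtain ⟨τ, hτ, hτb⟩ := hdet h b ⟨z₀, hz₀, h2⟩
    have hch : ∀ i : Fin (n ⟨τ, hτ⟩), ∃ y, InS (k ⟨τ, hτ⟩ i) (a ⟨τ, hτ⟩ i) y ∧ 1 - ε < |f y| :=
      fun i => hI ⟨τ, hτ⟩ i ε hε
    choose y hyS hyf using hch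
    have h3 := hτb _ (hcomb ⟨τ, hτ⟩ y hyS)
    have h4 : ∀ i, h (y i) < b := by
      intro i
      apply h1
      apply subset_closure
      apply subset_convexHull
      rcases lt_abs.mp (hyf i) with h5 | h5
      · exact Or.inl ⟨(hyS i).1, h5⟩
      · exact Or.inr ⟨(hyS i).1, by linarith⟩
    rw [map_sum] at h3
    have h5 : ∑ i, h (l ⟨τ, hτ⟩ i • y i) ≤ ∑ i, l ⟨τ, hτ⟩ i * b := by
      refine Finset.sum_le_sum fun i _ => ?_
      rw [map_smul, smul_eq_mul]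
      exact mul_le_mul_of_nonneg_left (h4 i).le (hl0 _ i)
    rw [← Finset.sum_mul, hl1, one_mul] at h5
    linarith

end MPbb13ef
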