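import Pool.Agent.Work.MP_bb13ef_an.TD.Stmts2

/-!
# Block TD, second part, item VBD: spear vectors and a boundary
-/

set_option autoImplicit false

namespace MPbb13ef

namespace IVBD

section

variable {X : Type} [NormedAddCommGroup X] [NormedSpace ℝ X]

theorem signs (v : ℕ → X) (hv : ∀ n, SpV (v n)) (x : X) (N : ℕ) :
    ∃ s : ℕ → ℝ, (∀ j, s j = 1 ∨ s j = -1) ∧
      ‖x‖ + N ≤ ‖x + ∑ j ∈ Finset.range N, s j • v j‖ := by
  induction N with
  | zero => exact ⟨fun _ => 1, fun _ => Or.inl rfl, by simp⟩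
  | succ N ih =>
    obtain ⟨s, hs, h⟩ := ih
    have key : ∀ ε : ℝ, (ε = 1 ∨ ε = -1) →
        1 + ‖x + ∑ j ∈ Finset.range N, s j • v j‖ ≤
          ‖(x + ∑ j ∈ Finset.range N, s j • v j) + ε • v N‖ →
        ∃ s : ℕ → ℝ, (∀ j, s j = 1 ∨ s j = -1) ∧
          ‖x‖ + ((N + 1 : ℕ) : ℝ) ≤ ‖x + ∑ j ∈ Finset.range (N + 1), s j • v j‖ := by
      intro ε hε h1
      refine ⟨Function.update s N ε, ?_, ?_⟩
      · intro j
        by_cases hj : j = N
        · subst hj
          simpa using hε
        · rw [Function.update_of_ne hj]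
          exact hs j
      · rw [Finset.sum_range_succ, Function.update_self]
        have h2 : ∑ j ∈ Finset.range N, Function.update s N ε j • v j =
            ∑ j ∈ Finset.range N, s j • v j := by
          apply Finset.sum_congr rfl
          intro j hj
          rw [Function.update_of_ne (Finset.mem_range.1 hj).ne]
        rw [h2, ← add_assoc]
        push_cast
        linarith
    rcases (hv N).2 (x + ∑ j ∈ Finset.range N, s j • v j) with h1 | h1
    · apply key 1 (Or.inl rfl)
      rw [one_smul, add_comm _ (v N)]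
      exact h1
    · apply key (-1) (Or.inr rfl)
      rw [neg_one_smul, ← sub_eq_add_neg, norm_sub_rev]
      exact h1

theorem fin (v : ℕ → X) (hv : ∀ n, SpV (v n)) (x : X) (N : ℕ) :
    ∃ f : X →L[ℝ] ℝ, ‖f‖ ≤ 1 ∧ f x = ‖x‖ ∧ ∀ j < N, |f (v j)| = 1 := by
  obtain ⟨s, hs, h⟩ := signs v hv x N
  obtain ⟨f, hf, hfw⟩ := exists_dual_vector'' ℝ (x + ∑ j ∈ Finset.range N, s j • v j)
  have hb : ∀ y : X, |f y| ≤ ‖y‖ := by
    intro y
    have h1 := f.le_opNorm y
    rw [Real.norm_eq_abs] at h1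
    exact h1.trans (mul_le_of_le_one_left (norm_nonneg _) hf)
  have h1 : f x + ∑ j ∈ Finset.range N, s j * f (v j) =
      ‖x + ∑ j ∈ Finset.range N, s j • v j‖ := by
    rw [map_add, map_sum] at hfw
    simp only [map_smul, smul_eq_mul] at hfw
    rw [hfw]
    rfl
  have hx : f x ≤ ‖x‖ := (le_abs_self _).trans (hb x)
  have hj : ∀ j, s j * f (v j) ≤ 1 := by
    intro j
    have h2 : |f (v j)| ≤ 1 := (hb _).trans (hv j).1
    have h3 := abs_le.1 h2
    rcases hs j with h4 | h4 <;> rw [h4] <;> linarith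
  have h2 : ∑ j ∈ Finset.range N, (1 - s j * f (v j)) =
      N - ∑ j ∈ Finset.range N, s j * f (v j) := by
    rw [Finset.sum_sub_distrib]
    simp
  have h3 : ∀ j ∈ Finset.range N, 0 ≤ 1 - s j * f (v j) := fun j _ => by
    have := hj j
    linarith
  have h4 := Finset.sum_nonneg h3
  refine ⟨f, hf, by linarith, ?_⟩
  intro j hjN
  have h5 := Finset.single_le_sum h3 (Finset.mem_range.2 hjN)
  have h6 : s j * f (v j) = 1 := by
    have := hj j
    linarith
  rcases hs j with h7 | h7
  · rw [h7, one_mul] at h6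
    rw [h6, abs_one]
  · rw [h7, neg_one_mul] at h6
    rw [← abs_neg, h6, abs_one]

end

end IVBD

theorem pr_VBD : S_VBD := by
  intro X _ _ v hv x
  let t : ℕ → Set (WeakDual ℝ X) := fun N =>
    (WeakDual.toStrongDual ⁻¹' Metric.closedBall 0 1) ∩
      ({f | f x = ‖x‖} ∩ {f | ∀ j < N, |f (v j)| = 1})
  have hK : IsCompact (WeakDual.toStrongDual ⁻¹' Metric.closedBall 0 1 : Set (WeakDual ℝ X)) :=
    WeakDual.isCompact_closedBall (𝕜 := ℝ) (E := X) 0 1
  have hc : ∀ N, IsClosed ({f | f x = ‖x‖} ∩ {f | ∀ j < N, |f (v j)| = 1} :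
      Set (WeakDual ℝ X)) := by
    intro N
    apply IsClosed.inter
    · exact isClosed_eq (WeakDual.eval_continuous x) continuous_const
    · simp only [Set.ofPred_forall]
      exact isClosed_iInter fun j => isClosed_iInter fun _ =>
        isClosed_eq (WeakDual.eval_continuous (v j)).abs continuous_const
  have hne : (⋂ N, t N).Nonempty := by
    apply IsCompact.nonempty_iInter_of_sequence_nonempty_isCompact_isClosed t
    · intro N f hf
      exact ⟨hf.1, hf.2.1, fun j hj => hf.2.2 j (by omega)⟩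
    · intro N
      obtain ⟨f, hf, hfx, hfv⟩ := IVBD.fin v hv x N
      refine ⟨WeakDual.toStrongDual.symm f, ?_, hfx, hfv⟩
      show WeakDual.toStrongDual (WeakDual.toStrongDual.symm f) ∈ Metric.closedBall 0 1
      rw [LinearEquiv.apply_symm_apply, mem_closedBall_zero_iff]
      exact hf
    · exact hK.inter_right (hc 0)
    · intro N
      exact hK.isClosed.inter (hc N)
  obtain ⟨f, hf⟩ := hne
  rw [Set.mem_iInter] at hf
  refine ⟨WeakDual.toStrongDual f, ⟨?_, ?_⟩, (hf 0).2.1⟩
  · have h1 : WeakDual.toStrongDual f ∈ Metric.closedBall 0 1 := (hf 0).1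
    rwa [mem_closedBall_zero_iff] at h1
  · intro n
    exact (hf (n + 1)).2.2 n (by omega)

end MPbb13ef
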