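import Pool.Agent.Work.MP_bb13ef_an.TD.Stmts2
import Pool.Agent.Work.MP_bb13ef_an.ACL.Final

/-!
# Item VC0: eventually constant signs give `c₀`
-/

set_option autoImplicit false

open scoped ZeroAtInfty

namespace MPbb13ef

namespace IVC0

variable {X : Type} [NormedAddCommGroup X] [NormedSpace ℝ X]

theorem pm {f : X →L[ℝ] ℝ} {v : ℕ → X} (hf : f ∈ KV v) (n : ℕ) : f (v n) = 1 ∨ f (v n) = -1 := by
  have h := hf.2 n
  rcases abs_cases (f (v n)) with ⟨h1, _⟩ | ⟨h1, _⟩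
  · left; linarith
  · right; linarith

theorem ev {f : X →L[ℝ] ℝ} {v : ℕ → X} {M : Set ℕ} (hf : f ∈ KV v) (hO : OV v M = ∅) :
    ∃ (N : ℕ) (c : ℝ), ∀ n ∈ M, N ≤ n → f (v n) = c := by
  have h1 : f ∉ OV v M := by
    rw [hO]
    exact Set.notMem_empty f
  have h2 : ¬ ∀ (s : Bool) (N : ℕ), ∃ n ∈ M, N ≤ n ∧ f (v n) = sg s := fun h => h1 ⟨hf, h⟩
  push Not at h2
  obtain ⟨s, N, h⟩ := h2
  refine ⟨N, - sg s, fun n hn hN => ?_⟩
  have h3 := h n hn hN
  cases s with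
  | true =>
    have e : sg true = 1 := rfl
    rw [e] at h3 ⊢
    rcases pm hf n with h4 | h4
    · exact absurd h4 h3
    · exact h4
  | false =>
    have e : sg false = -1 := rfl
    rw [e] at h3 ⊢
    rcases pm hf n with h4 | h4
    · rw [h4]; norm_num
    · exact absurd h4 h3

end IVC0

open IVC0 in
theorem pr_VC0 : S_VC0 := by
  intro hVBD X _ _ _ v hv hinj M hM hO
  have hbd := hVBD X v hv
  have hms : StrictMono (Nat.nth (· ∈ M)) := Nat.nth_strictMono hM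
  have hmm : ∀ n, Nat.nth (· ∈ M) n ∈ M := Nat.nth_mem_of_infinite hM
  obtain ⟨m, hm⟩ : ∃ m : ℕ → ℕ, m = Nat.nth (· ∈ M) := ⟨_, rfl⟩
  rw [← hm] at hms
  have hmm' : ∀ n, m n ∈ M := by rw [hm]; exact hmm
  refine prf_F X (KV v) (fun k => v (m (2 * k)) - v (m (2 * k + 1))) 2 ?_ two_pos ?_ ?_
  · intro x
    obtain ⟨f, hf, hfx⟩ := hbd x
    exact ⟨f, hf, hf.1, by rw [hfx, abs_of_nonneg (norm_nonneg x)]⟩
  · intro k
    obtain ⟨f, hf, hfx⟩ := hbd (v (m (2 * k)) - v (m (2 * k + 1)))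
    have hne : v (m (2 * k)) - v (m (2 * k + 1)) ≠ 0 := by
      intro h
      have h1 := hms.injective (hinj (sub_eq_zero.1 h))
      omega
    have hpos : 0 < ‖v (m (2 * k)) - v (m (2 * k + 1))‖ := norm_pos_iff.2 hne
    change 2 ≤ ‖v (m (2 * k)) - v (m (2 * k + 1))‖
    rw [← hfx, map_sub] at hpos ⊢
    rcases pm hf (m (2 * k)) with h1 | h1 <;> rcases pm hf (m (2 * k + 1)) with h2 | h2 <;>
      rw [h1, h2] at hpos ⊢ <;> linarith
  · intro f hf
    obtain ⟨N, c, h⟩ := ev hf hO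
    refine summable_of_ne_finset_zero (s := Finset.range N) fun k hk => ?_
    rw [Finset.mem_range, not_lt] at hk
    have h1 : N ≤ m (2 * k) := le_trans (by omega : N ≤ 2 * k) (hms.id_le (2 * k))
    have h2 : N ≤ m (2 * k + 1) := le_trans (by omega : N ≤ 2 * k + 1) (hms.id_le (2 * k + 1))
    change |f (v (m (2 * k)) - v (m (2 * k + 1)))| = 0
    rw [map_sub, h _ (hmm' _) h1, h _ (hmm' _) h2, sub_self, abs_zero]

end MPbb13ef
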