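import Pool.Agent.Work.MP_bb13ef_an.TD.Stmts2

/-!
# Block TD, second part, item VST: stabilisation
-/

set_option autoImplicit false

open scoped ZeroAtInfty

namespace MPbb13ef

namespace IVST

variable {X : Type} [NormedAddCommGroup X] [NormedSpace ℝ X]

theorem ov_mono (v : ℕ → X) {M M' : Set ℕ} (h : M ⊆ M') : OV v M ⊆ OV v M' := by
  intro f hf
  refine ⟨hf.1, fun s N => ?_⟩
  obtain ⟨n, hn, h1, h2⟩ := hf.2 s N
  exact ⟨n, h hn, h1, h2⟩

open Classical in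
/-- one step -/
noncomputable def stp (v : ℕ → X) (V : Set (X →L[ℝ] ℝ)) (P : Set ℕ) : Set ℕ :=
  if h : ∃ P' : Set ℕ, P' ⊆ P ∧ P'.Infinite ∧ V ∩ OV v P' = ∅ then h.choose else P

theorem stp_sub (v : ℕ → X) (V : Set (X →L[ℝ] ℝ)) (P : Set ℕ) : stp v V P ⊆ P := by
  unfold stp
  split_ifs with h
  · exact h.choose_spec.1
  · exact subset_rfl

theorem stp_inf (v : ℕ → X) (V : Set (X →L[ℝ] ℝ)) (P : Set ℕ) (hP : P.Infinite) :
    (stp v V P).Infinite := by
  unfold stp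
  split_ifs with h
  · exact h.choose_spec.2.1
  · exact hP

theorem stp_miss (v : ℕ → X) (V : Set (X →L[ℝ] ℝ)) (P P' : Set ℕ) (h0 : P' ⊆ P)
    (h1 : P'.Infinite) (h2 : V ∩ OV v P' = ∅) : V ∩ OV v (stp v V P) = ∅ := by
  have h : ∃ P' : Set ℕ, P' ⊆ P ∧ P'.Infinite ∧ V ∩ OV v P' = ∅ := ⟨P', h0, h1, h2⟩
  unfold stp
  rw [dif_pos h]
  exact h.choose_spec.2.2

/-- the sequence of infinite sets -/
noncomputable def sq (v : ℕ → X) (V : ℕ → Set (X →L[ℝ] ℝ)) : ℕ → Set ℕ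
  | 0 => Set.univ
  | n + 1 => stp v (V n) (sq v V n)

theorem sq_inf (v : ℕ → X) (V : ℕ → Set (X →L[ℝ] ℝ)) (n : ℕ) : (sq v V n).Infinite := by
  induction n with
  | zero => exact Set.infinite_univ
  | succ n ih => exact stp_inf v (V n) _ ih

theorem sq_anti (v : ℕ → X) (V : ℕ → Set (X →L[ℝ] ℝ)) : Antitone (sq v V) :=
  antitone_nat_of_succ_le fun n => stp_sub v (V n) (sq v V n)

/-- a number of the set `S n` larger than `a` -/
noncomputable def nx (S : ℕ → Set ℕ) (hS : ∀ n, (S n).Infinite) (n a : ℕ) : ℕ :=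
  ((hS n).exists_gt a).choose

theorem nx_spec (S : ℕ → Set ℕ) (hS : ∀ n, (S n).Infinite) (n a : ℕ) :
    nx S hS n a ∈ S n ∧ a < nx S hS n a := ((hS n).exists_gt a).choose_spec

/-- the diagonal sequence -/
noncomputable def dg (S : ℕ → Set ℕ) (hS : ∀ n, (S n).Infinite) : ℕ → ℕ
  | 0 => nx S hS 0 0
  | n + 1 => nx S hS (n + 1) (dg S hS n)

theorem dg_mem (S : ℕ → Set ℕ) (hS : ∀ n, (S n).Infinite) (n : ℕ) : dg S hS n ∈ S n := by
  cases n with
  | zero => exact (nx_spec S hS 0 0).1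
  | succ n => exact (nx_spec S hS (n + 1) (dg S hS n)).1

theorem dg_mono (S : ℕ → Set ℕ) (hS : ∀ n, (S n).Infinite) : StrictMono (dg S hS) :=
  strictMono_nat_of_lt_succ fun n => (nx_spec S hS (n + 1) (dg S hS n)).2

end IVST

open IVST in
theorem pr_VST : S_VST := by
  intro X _ _ v
  obtain ⟨g, hg⟩ := exists_surjective_nat (List (ℕ × Bool))
  obtain ⟨S, hS⟩ : ∃ S : ℕ → Set ℕ, S = sq v (fun n => BV v (g n)) := ⟨_, rfl⟩
  have hinf : ∀ n, (S n).Infinite := fun n => by rw [hS]; exact sq_inf v _ n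
  have hanti : Antitone S := by rw [hS]; exact sq_anti v _
  obtain ⟨m, hm⟩ : ∃ m : ℕ → ℕ, m = dg S hinf := ⟨_, rfl⟩
  have hmem : ∀ n, m n ∈ S n := fun n => by rw [hm]; exact dg_mem S hinf n
  have hmono : StrictMono m := by rw [hm]; exact dg_mono S hinf
  refine ⟨Set.range m, Set.infinite_range_of_injective hmono.injective, ?_⟩
  intro σ hσ M' hM' hM'inf
  by_contra hne
  rw [Set.not_nonempty_iff_eq_empty] at hne
  obtain ⟨n, rfl⟩ := hg σ
  -- the part of `M'` inside `S n` is infinite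
  have h1 : (M' ∩ S n).Infinite := by
    have hfin : (m '' Set.Iio n).Finite := (Set.finite_Iio n).image m
    refine (hM'inf.sdiff hfin).mono ?_
    rintro a ⟨ha, hna⟩
    refine ⟨ha, ?_⟩
    obtain ⟨i, rfl⟩ := hM' ha
    have hi : n ≤ i := by
      by_contra hlt
      exact hna ⟨i, not_le.1 hlt, rfl⟩
    exact hanti hi (hmem i)
  have h2 : BV v (g n) ∩ OV v (M' ∩ S n) = ∅ := by
    rw [Set.eq_empty_iff_forall_notMem]
    rintro f ⟨hf1, hf2⟩
    have : f ∈ BV v (g n) ∩ OV v M' := ⟨hf1, ov_mono v Set.inter_subset_left hf2⟩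
    rw [hne] at this
    exact this
  have h3 : BV v (g n) ∩ OV v (S (n + 1)) = ∅ := by
    have h4 := stp_miss v (BV v (g n)) (S n) (M' ∩ S n) Set.inter_subset_right h1 h2
    have h5 : S (n + 1) = stp v (BV v (g n)) (S n) := by
      rw [hS]
      rfl
    rw [h5]
    exact h4
  obtain ⟨f, hf1, hf2⟩ := hσ
  have h6 : f ∈ OV v (S (n + 1)) := by
    refine ⟨hf2.1, fun s N => ?_⟩
    obtain ⟨a, ha, h7, h8⟩ := hf2.2 s (max N (m (n + 1)))
    obtain ⟨i, rfl⟩ := ha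
    have hi : n + 1 ≤ i := hmono.le_iff_le.1 ((le_max_right _ _).trans h7)
    exact ⟨m i, hanti hi (hmem i), (le_max_left _ _).trans h7, h8⟩
  have h9 : f ∈ BV v (g n) ∩ OV v (S (n + 1)) := ⟨hf1, h6⟩
  rw [h3] at h9
  exact h9

end MPbb13ef
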