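import Pool.Agent.Work.MP_bb13ef_an.TD.Stmts

/-! # Block TD, item WP1 -/

set_option autoImplicit false

open scoped ZeroAtInfty

namespace MPbb13ef

theorem pr_WP1 : S_WP1 := by
  intro X _ _ d _ hdense hU
  by_contra hcon
  push Not at hcon
  have key : ∀ i : ℕ × ℚ × ℚ, ∃ 𝒲 : Set (List ((X →L[ℝ] ℝ) × ℝ)), 𝒲.Countable ∧
      (0 < i.2.2 → ¬ (BX d (i.2.1 : ℝ) (i.2.2 : ℝ) [] ∩
        NN (d i.1) (i.2.1 : ℝ) (i.2.2 : ℝ) 𝒲).Nonempty) := by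
    intro i
    by_cases h : 0 < i.2.2
    · have h1 := hcon i.1 (i.2.1 : ℝ) (i.2.2 : ℝ) (by exact_mod_cast h)
      unfold Fert at h1
      push Not at h1
      obtain ⟨𝒲, h2, h3⟩ := h1
      refine ⟨𝒲, h2, fun _ => ?_⟩
      rw [h3]
      exact Set.not_nonempty_empty
    · exact ⟨∅, Set.countable_empty, fun h' => absurd h' h⟩
  choose W hWc hW using key
  obtain ⟨g, b', ⟨z, hz1, hz2⟩, hy⟩ := hU {τ | τ ∈ (⋃ i, W i) ∧ (WO τ).Nonempty}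
    ((Set.countable_iUnion hWc).mono fun τ hτ => hτ.1) (fun τ hτ => hτ.2)
  set c : ℝ := max ‖g‖ 1 with hc
  have hc0 : 0 < c := lt_of_lt_of_le one_pos (le_max_right _ _)
  have hgc : ‖c⁻¹ • g‖ ≤ 1 := by
    rw [norm_smul, Real.norm_eq_abs, abs_of_pos (inv_pos.mpr hc0), inv_mul_le_iff₀ hc0, mul_one]
    exact le_max_left _ _
  have hev : ∀ x, (c⁻¹ • g) x = c⁻¹ * g x := fun x => rfl
  have hs : 0 < (c⁻¹ • g) z - c⁻¹ * b' := by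
    rw [hev]
    have := mul_lt_mul_of_pos_left hz2 (inv_pos.mpr hc0)
    linarith
  set s : ℝ := (c⁻¹ • g) z - c⁻¹ * b' with hsd
  obtain ⟨n, hn⟩ := hdense z hz1 (s / 4) (by positivity)
  obtain ⟨b, hb1, hb2⟩ := exists_rat_btwn (show c⁻¹ * b' < c⁻¹ * b' + s / 4 by linarith)
  obtain ⟨δ, hd1, hd2⟩ := exists_rat_btwn (show (0 : ℝ) < s / 4 by positivity)
  refine hW (n, b, δ) (by exact_mod_cast hd1) ⟨c⁻¹ • g, ?_, hgc, ?_, ?_⟩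
  · intro p hp
    simp at hp
  · have h1 : (c⁻¹ • g) z - (c⁻¹ • g) (d n) ≤ ‖z - d n‖ := by
      rw [← map_sub]
      calc (c⁻¹ • g) (z - d n) ≤ ‖(c⁻¹ • g) (z - d n)‖ := Real.le_norm_self _
        _ ≤ ‖c⁻¹ • g‖ * ‖z - d n‖ := (c⁻¹ • g).le_opNorm _
        _ ≤ 1 * ‖z - d n‖ := mul_le_mul_of_nonneg_right hgc (norm_nonneg _)
        _ = ‖z - d n‖ := one_mul _
    change (b : ℝ) + (δ : ℝ) < (c⁻¹ • g) (d n)
    linarith
  · intro τ hτ hne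
    obtain ⟨y, hy1, hy2⟩ := hy τ ⟨Set.mem_iUnion.mpr ⟨_, hτ⟩, hne⟩
    refine ⟨y, hy1, ?_⟩
    change (c⁻¹ • g) y ≤ (b : ℝ)
    rw [hev]
    have := mul_le_mul_of_nonneg_left hy2 (inv_pos.mpr hc0).le
    linarith

end MPbb13ef
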