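import Pool.Agent.Work.MP_bb13ef_an.TD.Stmts

/-!
# Block TD, item WP2: fertile boxes can be split simultaneously
-/

set_option autoImplicit false

open scoped ZeroAtInfty

namespace MPbb13ef

namespace IWP2

variable {X : Type} [NormedAddCommGroup X] [NormedSpace ℝ X]

theorem NN_anti (d : X) (b δ : ℝ) {𝒲 𝒲' : Set (List ((X →L[ℝ] ℝ) × ℝ))} (h : 𝒲 ⊆ 𝒲') :
    NN d b δ 𝒲' ⊆ NN d b δ 𝒲 := fun _ hg => ⟨hg.1, hg.2.1, fun τ hτ => hg.2.2 τ (h hτ)⟩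

/-- a universal countable family -/
theorem exists_univ (d : ℕ → X) (d₀ : X) (b δ : ℝ) :
    ∃ 𝒲₀ : Set (List ((X →L[ℝ] ℝ) × ℝ)), 𝒲₀.Countable ∧ ∀ σ : List (ℕ × Bool),
      (BX d b δ σ ∩ NN d₀ b δ 𝒲₀).Nonempty → Fert d d₀ b δ σ := by
  classical
  have h : ∀ σ : List (ℕ × Bool), ∃ 𝒲 : Set (List ((X →L[ℝ] ℝ) × ℝ)), 𝒲.Countable ∧
      ((BX d b δ σ ∩ NN d₀ b δ 𝒲).Nonempty → Fert d d₀ b δ σ) := by
    intro σ
    by_cases hf : Fert d d₀ b δ σ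
    · exact ⟨∅, Set.countable_empty, fun _ => hf⟩
    · unfold Fert at hf
      push Not at hf
      obtain ⟨𝒲, h1, h2⟩ := hf
      refine ⟨𝒲, h1, fun h3 => ?_⟩
      rw [h2] at h3
      exact absurd h3 Set.not_nonempty_empty
  choose W hW1 hW2 using h
  refine ⟨⋃ σ, W σ, Set.countable_iUnion hW1, ?_⟩
  rintro σ ⟨g, hg1, hg2⟩
  exact hW2 σ ⟨g, hg1, NN_anti d₀ b δ (Set.subset_iUnion W σ) hg2⟩

/-- a functional of norm at most one is nonexpansive -/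
theorem lip {g : X →L[ℝ] ℝ} (hg : ‖g‖ ≤ 1) (y z : X) : |g y - g z| ≤ ‖y - z‖ := by
  rw [← map_sub]
  calc |g (y - z)| = ‖g (y - z)‖ := (Real.norm_eq_abs _).symm
    _ ≤ ‖g‖ * ‖y - z‖ := g.le_opNorm _
    _ ≤ 1 * ‖y - z‖ := mul_le_mul_of_nonneg_right hg (norm_nonneg _)
    _ = ‖y - z‖ := one_mul _

/-- the induction over the finite set of boxes -/
theorem induct (d : ℕ → X) (d₀ : X) (b δ : ℝ) (hδ : 0 < δ) {J : Type} (σ : J → List (ℕ × Bool))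
    (hσ : ∀ j, Fert d d₀ b δ (σ j)) (𝒲₀ : Set (List ((X →L[ℝ] ℝ) × ℝ))) (h0 : 𝒲₀.Countable)
    (τ₀ : List ((X →L[ℝ] ℝ) × ℝ)) (hτ₀ : (WO τ₀).Nonempty) (F : Finset J) :
    ∃ τ : List ((X →L[ℝ] ℝ) × ℝ), (WO τ).Nonempty ∧ WO τ ⊆ WO τ₀ ∧
      ∀ j ∈ F, ∃ g ∈ BX d b δ (σ j) ∩ NN d₀ b δ 𝒲₀, ∀ y ∈ WO τ, g y < b + δ / 6 := by
  classical
  induction F using Finset.induction_on with
  | empty => exact ⟨τ₀, hτ₀, le_rfl, fun j hj => absurd hj (Finset.notMem_empty j)⟩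
  | insert j F hj ih =>
    obtain ⟨τ, h1, h2, h3⟩ := ih
    obtain ⟨g, hg1, hg2⟩ := hσ j (𝒲₀ ∪ {τ}) (h0.union (Set.countable_singleton τ))
    obtain ⟨y, hy, hgy⟩ := hg2.2.2 τ (Or.inr rfl) h1
    have hsub : WO ((-g, -(b + δ / 6)) :: τ) ⊆ WO τ := by
      intro z hz
      exact ⟨hz.1, fun p hp => hz.2 p (List.mem_cons_of_mem _ hp)⟩
    have hlt : ∀ z ∈ WO ((-g, -(b + δ / 6)) :: τ), g z < b + δ / 6 := by
      intro z hz
      have h4 := hz.2 (-g, -(b + δ / 6)) List.mem_cons_self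
      have h5 : -(b + δ / 6) < -(g z) := h4
      linarith
    refine ⟨(-g, -(b + δ / 6)) :: τ, ⟨y, hy.1, ?_⟩, hsub.trans h2, ?_⟩
    · intro p hp
      rcases List.mem_cons.1 hp with rfl | hp
      · change -(b + δ / 6) < -(g y)
        linarith
      · exact hy.2 p hp
    · intro j' hj'
      rcases Finset.mem_insert.1 hj' with rfl | hj'
      · exact ⟨g, ⟨hg1, NN_anti d₀ b δ Set.subset_union_left hg2⟩, hlt⟩
      · obtain ⟨g', hg', hg''⟩ := h3 j' hj'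
        exact ⟨g', hg', fun z hz => hg'' z (hsub hz)⟩

end IWP2

open IWP2

/-- item WP2 -/
theorem pr_WP2 : S_WP2 := by
  classical
  intro X _ _ d d₀ b δ _ hdense hd₀ hδ J _ σ hσ
  obtain ⟨𝒲₀, h0, huniv⟩ := exists_univ d d₀ b δ
  choose a ha using fun j => hσ j 𝒲₀ h0
  obtain ⟨τ₀, hτ₀⟩ : ∃ τ₀ : List ((X →L[ℝ] ℝ) × ℝ), τ₀ =
      (Finset.univ : Finset J).toList.map (fun j => (a j, b + δ)) := ⟨_, rfl⟩
  have hne : (WO τ₀).Nonempty := by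
    refine ⟨d₀, hd₀, ?_⟩
    intro p hp
    rw [hτ₀, List.mem_map] at hp
    obtain ⟨j, -, rfl⟩ := hp
    exact (ha j).2.2.1
  obtain ⟨τ, ⟨y, hy⟩, h2, h3⟩ := induct d d₀ b δ hδ σ hσ 𝒲₀ h0 τ₀ hne Finset.univ
  obtain ⟨m, hm⟩ := hdense y hy.1 (δ / 6) (by positivity)
  refine ⟨m, fun j => ⟨?_, ?_⟩⟩
  · apply huniv
    refine ⟨a j, ?_, (ha j).2⟩
    have h4 : b + δ < a j y := by
      have hy0 := h2 hy
      apply hy0.2 (a j, b + δ)
      rw [hτ₀, List.mem_map]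
      exact ⟨j, Finset.mem_toList.2 (Finset.mem_univ j), rfl⟩
    have h5 := abs_le.1 (lip (ha j).2.1 y (d m))
    intro p hp
    rcases List.mem_cons.1 hp with rfl | hp
    · simp only [if_true]
      linarith [h5.2]
    · exact (ha j).1 p hp
  · apply huniv
    obtain ⟨g, hg, hg'⟩ := h3 j (Finset.mem_univ j)
    refine ⟨g, ?_, hg.2⟩
    have h4 := hg' y hy
    have h5 := abs_le.1 (lip hg.2.1 y (d m))
    intro p hp
    rcases List.mem_cons.1 hp with rfl | hp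
    · simp only [Bool.false_eq_true, if_false]
      linarith [h5.1]
    · exact hg.1 p hp

end MPbb13ef
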