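import Pool.Agent.Work.MP_bb13ef_an.TD.Stmts

/-!
# Block TD, item WP3: a fertile empty box gives an independent sequence
-/

set_option autoImplicit false

namespace MPbb13ef

namespace IWP3

/-- The sequence of lists. -/
def Ls (mm : List ℕ → ℕ) : ℕ → List ℕ
  | 0 => []
  | n + 1 => mm (Ls mm n) :: Ls mm n

/-- The list of the signs. -/
def Ss (s : ℕ → Bool) : ℕ → List Bool
  | 0 => []
  | n + 1 => s n :: Ss s n

theorem length_Ls (mm : List ℕ → ℕ) (n : ℕ) : (Ls mm n).length = n := by
  induction n with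
  | zero => rfl
  | succ n ih => simp [Ls, ih]

theorem length_Ss (s : ℕ → Bool) (n : ℕ) : (Ss s n).length = n := by
  induction n with
  | zero => rfl
  | succ n ih => simp [Ss, ih]

theorem mem_zip (mm : List ℕ → ℕ) (s : ℕ → Bool) (n : ℕ) :
    ∀ i < n, (mm (Ls mm i), s i) ∈ (Ls mm n).zip (Ss s n) := by
  induction n with
  | zero => intro i hi; omega
  | succ n ih =>
    intro i hi
    have h : (Ls mm (n + 1)).zip (Ss s (n + 1)) =
        (mm (Ls mm n), s n) :: (Ls mm n).zip (Ss s n) := rfl
    rw [h]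
    rcases Nat.lt_succ_iff_lt_or_eq.1 hi with h1 | h1
    · exact List.mem_cons_of_mem _ (ih i h1)
    · rw [h1]
      exact List.mem_cons_self

end IWP3

theorem pr_WP3 : S_WP3 := by
  intro h2 X _ _ d d₀ b δ hd hdense hd₀ hδ hF
  have hstep : ∀ L : List ℕ, (∀ S : List Bool, S.length = L.length → Fert d d₀ b δ (L.zip S)) →
      ∃ m : ℕ, ∀ S : List Bool, S.length = (m :: L).length → Fert d d₀ b δ ((m :: L).zip S) := by
    intro L hL
    obtain ⟨m, hm⟩ := h2 X d d₀ b δ hd hdense hd₀ hδ (List.Vector Bool L.length)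
      (fun j => L.zip j.val) (fun j => hL j.val j.property)
    refine ⟨m, fun S hS => ?_⟩
    cases S with
    | nil => simp at hS
    | cons a S' =>
      have hS' : S'.length = L.length := by simpa using hS
      have := hm ⟨S', hS'⟩
      show Fert d d₀ b δ ((m, a) :: L.zip S')
      cases a with
      | true => exact this.1
      | false => exact this.2
  choose! mm hmm using hstep
  have hgood : ∀ n, ∀ S : List Bool, S.length = (IWP3.Ls mm n).length →
      Fert d d₀ b δ ((IWP3.Ls mm n).zip S) := by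
    intro n
    induction n with
    | zero =>
      intro S _
      show Fert d d₀ b δ (([] : List ℕ).zip S)
      rw [List.zip_nil_left]
      exact hF
    | succ n ih =>
      exact hmm _ ih
  refine ⟨fun i => mm (IWP3.Ls mm i), fun n s => ?_⟩
  obtain ⟨g, hg1, hg2⟩ := hgood n (IWP3.Ss s n)
    (by rw [IWP3.length_Ls, IWP3.length_Ss]) ∅ Set.countable_empty
  refine ⟨g, hg2.1, fun i hi => ?_⟩
  exact hg1 _ (IWP3.mem_zip mm s n i hi)

end MPbb13ef
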