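import Pool.Agent.Work.MP_bb13ef_an.TD.Asm
import Pool.Agent.Work.MP_bb13ef_an.TD.Asm2
import Pool.Agent.Work.MP_bb13ef_an.TD.I_BOUF
import Pool.Agent.Work.MP_bb13ef_an.TD.I_WP1
import Pool.Agent.Work.MP_bb13ef_an.TD.I_WP2
import Pool.Agent.Work.MP_bb13ef_an.TD.I_WP3
import Pool.Agent.Work.MP_bb13ef_an.TD.I_LG
import Pool.Agent.Work.MP_bb13ef_an.TD.I_CIT
import Pool.Agent.Work.MP_bb13ef_an.TD.I_NRM
import Pool.Agent.Work.MP_bb13ef_an.TD.I_SG2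
import Pool.Agent.Work.MP_bb13ef_an.TD.I_CP2
import Pool.Agent.Work.MP_bb13ef_an.TD.I_LDT
import Pool.Agent.Work.MP_bb13ef_an.TD.I_LB
import Pool.Agent.Work.MP_bb13ef_an.TD.I_LL4
import Pool.Agent.Work.MP_bb13ef_an.TD.I_LHU
import Pool.Agent.Work.MP_bb13ef_an.TD.I_NOR
import Pool.Agent.Work.MP_bb13ef_an.TD.I_GEN
import Pool.Agent.Work.MP_bb13ef_an.TD.I_VBD
import Pool.Agent.Work.MP_bb13ef_an.TD.I_VST
import Pool.Agent.Work.MP_bb13ef_an.TD.I_VSP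
import Pool.Agent.Work.MP_bb13ef_an.TD.I_VC0

/-!
# Block TD: numerical index one and diameter two
-/

set_option autoImplicit false

open scoped ZeroAtInfty

namespace MPbb13ef

/-- the theorem, local form -/
theorem TD2 (X : Type) [NormedAddCommGroup X] [NormedSpace ℝ X] [CompleteSpace X]
    [TopologicalSpace.SeparableSpace X] (hX : ¬ FiniteDimensional ℝ X) (hNI : NI1 X)
    (h0 : ¬ HasC0 X) (h1 : ¬ HasL1 X) :
    ∃ F : Set X, F.Finite ∧ ∀ (h : X →L[ℝ] ℝ) (c : ℝ), (∃ z, InS h c z) →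
      (∀ v ∈ F, ¬ InS h c v) → ∃ (k : X →L[ℝ] ℝ) (a : ℝ), (∃ z, InS k a z) ∧
        (∀ x, InS k a x → InS h c x) ∧ SD2 k a :=
  asm_TD2 pr_VBD pr_GEN pr_VST pr_VSP pr_VC0 pr_LG pr_NOR pr_LDT pr_LB pr_LL4 pr_LHU pr_NRM
    (asm_WPB pr_WP1 pr_WP2 pr_WP3 pr_LG) pr_BOUF pr_CIT pr_SG2 pr_CP2 X hX hNI h0 h1

end MPbb13ef
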