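import Pool.Agent.Work.MP_bb13ef_an.TD.Stmts

/-!
# Block TD: assembly
-/

set_option autoImplicit false

open scoped ZeroAtInfty

namespace MPbb13ef

/-- assembly of `S_WPB` -/
theorem asm_WPB (h1 : S_WP1) (h2 : S_WP2) (h3 : S_WP3) (h4 : S_LG) : S_WPB := by
  intro X _ _ _ _ hL
  obtain ⟨d, hd1, hd2⟩ := prf_DNS X
  by_contra hcon
  push Not at hcon
  apply hL
  obtain ⟨n, b, δ, hδ, hF⟩ := h1 X d hd1 hd2 (by
    intro 𝒲 h𝒲 hne
    obtain ⟨g, b, hz, hh⟩ := hcon 𝒲 h𝒲 hne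
    exact ⟨g, b, hz, hh⟩)
  obtain ⟨m, hm⟩ := h3 h2 X d (d n) b δ hd1 hd2 (hd1 n) hδ hF
  exact h4 X (fun i => d (m i)) (b + δ / 3) (b + 2 * δ / 3) (by linarith) (fun i => hd1 _) hm

/-- the theorem for separable spaces with the alternative Daugavet property -/
theorem asm_TDA (hN : S_NRM) (hW : S_WPB) (hB : S_BOUF) (hC : S_CIT) (hG : S_SG2) (hP : S_CP2)
    (hS : S_SP2) (X : Type) [NormedAddCommGroup X] [NormedSpace ℝ X] [CompleteSpace X]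
    [TopologicalSpace.SeparableSpace X] (hX : ¬ FiniteDimensional ℝ X) (hA : ADP X)
    (hLoc : Loc X) : HasC0 X ∨ HasL1 X := by
  by_cases hL : HasL1 X
  · exact Or.inr hL
  have hsp := hN hW hB hC X hA hL
  have hbd : ∀ x : X, x ≠ 0 → ∃ f : X →L[ℝ] ℝ, Spear f ∧ f x = ‖x‖ := by
    intro x hx
    obtain ⟨f, hf, hfx⟩ := hP X x (fun r hr => by
      obtain ⟨f, hf, hfr⟩ := hsp x r hr
      exact ⟨f, hG X f (prf_HULL X f hf), hfr⟩)
    have hx0 : 0 < ‖x‖ := norm_pos_iff.2 hx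
    have h1 : ‖f‖ = 1 := by
      refine le_antisymm hf.1 ?_
      have := f.le_opNorm x
      rw [hfx, Real.norm_of_nonneg hx0.le] at this
      exact le_of_mul_le_mul_right (by linarith) hx0
    exact ⟨f, hS X hLoc f hf h1, hfx⟩
  exact prf_MAIN X _ _ (prf_SET prf_HULL X (exists_ne_zero_of_not_fd X hX) hbd) hX

/-- if no slice has the property of the theorem, then the local condition holds -/
theorem loc_of (X : Type) [NormedAddCommGroup X] [NormedSpace ℝ X]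
    (h : ¬ ∃ (h : X →L[ℝ] ℝ) (b : ℝ), (∃ z, InS h b z) ∧
      ∀ (n : ℕ) (l : Fin n → ℝ) (g : Fin n → (X →L[ℝ] ℝ)) (a : Fin n → ℝ),
        (∀ i, 0 ≤ l i) → ∑ i, l i = 1 → (∀ i, ∃ x, InS (g i) (a i) x) →
        (∀ i, ∀ x, InS (g i) (a i) x → b < h x) → ∀ r : ℝ, r < 2 →
        ∃ x y : Fin n → X, (∀ i, InS (g i) (a i) (x i)) ∧ (∀ i, InS (g i) (a i) (y i)) ∧
          r < ‖∑ i, l i • (x i - y i)‖) : Loc X := by
  intro k b hz
  by_contra hcon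
  refine h ⟨k, b, hz, ?_⟩
  intro n l g a hl hl1 hne hsub r hr
  by_contra hxy
  push Not at hxy
  exact hcon ⟨n, l, g, a, r, ⟨hl, hl1, hne, fun x y hx hy => hxy x y hx hy⟩, hr, hsub⟩

/-- the theorem in general -/
theorem asm_TD (hN : S_NRM) (hW : S_WPB) (hB : S_BOUF) (hC : S_CIT) (hG : S_SG2) (hP : S_CP2)
    (hS : S_SP2) (X : Type) [NormedAddCommGroup X] [NormedSpace ℝ X] [CompleteSpace X]
    (hX : ¬ FiniteDimensional ℝ X) (hNI : NI1 X) (h0 : ¬ HasC0 X) (h1 : ¬ HasL1 X)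
    (A : Set X) (hA : A.Countable) :
    ∃ Y : Submodule ℝ X, IsClosed (Y : Set X) ∧ TopologicalSpace.IsSeparable (Y : Set X) ∧
      A ⊆ (Y : Set X) ∧ ∃ (h : Y →L[ℝ] ℝ) (b : ℝ), (∃ z, InS h b z) ∧
      ∀ (n : ℕ) (l : Fin n → ℝ) (g : Fin n → (Y →L[ℝ] ℝ)) (a : Fin n → ℝ),
        (∀ i, 0 ≤ l i) → ∑ i, l i = 1 → (∀ i, ∃ x, InS (g i) (a i) x) →
        (∀ i, ∀ x, InS (g i) (a i) x → b < h x) → ∀ r : ℝ, r < 2 →
        ∃ x y : Fin n → Y, (∀ i, InS (g i) (a i) (x i)) ∧ (∀ i, InS (g i) (a i) (y i)) ∧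
          r < ‖∑ i, l i • (x i - y i)‖ := by
  have hAc : ADPc X := (prf_ADPC X).1 (prf_NIA X hNI)
  obtain ⟨A', hA', hAi⟩ := prf_INF X hX
  obtain ⟨Z, hZc, hZ⟩ := prf_SEPA X hAc
  obtain ⟨Y, D, hYc, hYs, hAY, hDY, hD1, hD2, hD3⟩ := prf_CLO X Z hZc (A ∪ A') (hA.union hA')
  have hYA : ADPc Y := hZ Y D hDY hD1 hD2 hD3
  have hYi : ¬ FiniteDimensional ℝ Y := hAi Y (Set.subset_union_right.trans hAY)
  have : CompleteSpace Y := hYc.completeSpace_coe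
  have : TopologicalSpace.SeparableSpace Y := hYs.separableSpace
  refine ⟨Y, hYc, hYs, Set.subset_union_left.trans hAY, ?_⟩
  by_contra hcon
  rcases asm_TDA hN hW hB hC hG hP hS Y hYi ((prf_ADPC Y).2 hYA) (loc_of Y hcon) with h | h
  · exact h0 ((prf_HAS X Y).1 h)
  · exact h1 ((prf_HAS X Y).2 h)

end MPbb13ef
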