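import Pool.Agent.Work.MP_bb13ef_an.TD.Stmts

/-!
[bb13ef TD] item SG2: spears are good functionals.
-/

set_option autoImplicit false

namespace MPbb13ef

namespace ISG2

open Filter Topology

/-- the choice of the small number -/
theorem exEps {n : ℕ} (c : Fin n → ℝ) (η δ : ℝ) (hη : 0 < η) (hδ : δ < 2) :
    ∃ e : ℝ, 0 < e ∧ δ < 2 * (1 - e) ∧ ∀ i, e * c i ≤ η := by
  have h1 : ∀ᶠ e in 𝓝[>] (0 : ℝ), ∀ i, e * c i ≤ η := by
    rw [eventually_all]
    intro i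
    have ht : Tendsto (fun e : ℝ => e * c i) (𝓝[>] (0 : ℝ)) (𝓝 (0 * c i)) :=
      (tendsto_id.mono_left nhdsWithin_le_nhds).mul_const (c i)
    rw [zero_mul] at ht
    filter_upwards [ht.eventually (gt_mem_nhds hη)] with e he
    exact he.le
  have h2 : ∀ᶠ e in 𝓝[>] (0 : ℝ), e < (2 - δ) / 2 :=
    nhdsWithin_le_nhds (gt_mem_nhds (by linarith))
  have h3 : ∀ᶠ e in 𝓝[>] (0 : ℝ), 0 < e := self_mem_nhdsWithin
  obtain ⟨e, he1, he2, he3⟩ := (h1.and (h2.and h3)).exists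
  exact ⟨e, he3, by linarith, he1⟩

variable {X : Type} [NormedAddCommGroup X] [NormedSpace ℝ X]

theorem fle (f : X →L[ℝ] ℝ) (x : X) (r : ℝ) (hx : ‖x‖ ≤ r) : f x ≤ ‖f‖ * r :=
  (le_abs_self _).trans ((f.le_opNorm x).trans (mul_le_mul_of_nonneg_left hx (norm_nonneg f)))

theorem oneSide (f : X →L[ℝ] ℝ) (hf : ‖f‖ ≤ 1) (g : X →L[ℝ] ℝ) (a η e : ℝ) (x y z : X) (l : ℝ)
    (he : 0 < e) (had : a < ‖g‖) (hc : e * (2 * ‖g‖ / (‖g‖ - a) + 2) ≤ η)
    (hdeep : ‖g‖ - η * (‖g‖ - a) < g x) (hy : ‖y‖ ≤ 1) (hz : ‖z‖ ≤ 1)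
    (hfy : 1 - e < f y) (hfz : 1 - e < f z) (hl0 : 0 ≤ l) (hl1 : l ≤ 1)
    (hx : ‖x - (l • y - (1 - l) • z)‖ < e) :
    (g (-z) ≤ a → 1 - 3 * η ≤ f x) ∧ (g y ≤ a → 1 - 3 * η ≤ - f x) := by
  have hd : 0 < ‖g‖ - a := by linarith
  have hg0 := norm_nonneg g
  have hk : e * (2 * ‖g‖) / (‖g‖ - a) + 2 * e ≤ η := by
    have : e * (2 * ‖g‖ / (‖g‖ - a) + 2) = e * (2 * ‖g‖) / (‖g‖ - a) + 2 * e := by ring
    rw [← this]; exact hc
  have hk' : e * (2 * ‖g‖) ≤ (η - 2 * e) * (‖g‖ - a) := by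
    rw [← div_le_iff₀ hd]; linarith
  have gx : g x = l * g y - (1 - l) * g z + g (x - (l • y - (1 - l) • z)) := by
    simp only [map_sub, map_smul, smul_eq_mul]; ring
  have fx : f x = l * f y - (1 - l) * f z + f (x - (l • y - (1 - l) • z)) := by
    simp only [map_sub, map_smul, smul_eq_mul]; ring
  have g1 : g (x - (l • y - (1 - l) • z)) ≤ ‖g‖ * e := fle g _ _ hx.le
  have f1 : f (x - (l • y - (1 - l) • z)) ≤ e :=
    (fle f _ _ hx.le).trans (by nlinarith [norm_nonneg f])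
  have f2 : - e ≤ f (x - (l • y - (1 - l) • z)) := by
    have := fle f (-(x - (l • y - (1 - l) • z))) e (by rw [norm_neg]; exact hx.le)
    rw [map_neg] at this
    nlinarith [norm_nonneg f]
  have fy1 : f y ≤ 1 := (fle f y 1 hy).trans (by linarith)
  have fz1 : f z ≤ 1 := (fle f z 1 hz).trans (by linarith)
  have gy1 : g y ≤ ‖g‖ := by simpa using fle g y 1 hy
  have gz1 : - g z ≤ ‖g‖ := by
    have := fle g (-z) 1 (by rw [norm_neg]; exact hz)
    rw [map_neg] at this; linarith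
  constructor
  · intro hz'
    rw [map_neg] at hz'
    -- (1 - l) d < η d + ‖g‖ e
    have q1 : (1 - l) * (‖g‖ - a) < η * (‖g‖ - a) + ‖g‖ * e := by
      have t1 : l * g y ≤ l * ‖g‖ := mul_le_mul_of_nonneg_left gy1 hl0
      have t2 : (1 - l) * (- g z) ≤ (1 - l) * a := mul_le_mul_of_nonneg_left hz' (by linarith)
      nlinarith
    have q2 : 2 * (1 - l) * (‖g‖ - a) < (3 * η - 2 * e) * (‖g‖ - a) := by nlinarith
    have q3 : 2 * (1 - l) < 3 * η - 2 * e := lt_of_mul_lt_mul_right q2 hd.le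
    have t3 : l * (1 - e) ≤ l * f y := mul_le_mul_of_nonneg_left hfy.le hl0
    have t4 : (1 - l) * f z ≤ (1 - l) * 1 := mul_le_mul_of_nonneg_left fz1 (by linarith)
    nlinarith
  · intro hy'
    have q1 : l * (‖g‖ - a) < η * (‖g‖ - a) + ‖g‖ * e := by
      have t1 : l * g y ≤ l * a := mul_le_mul_of_nonneg_left hy' hl0
      have t2 : (1 - l) * (- g z) ≤ (1 - l) * ‖g‖ := mul_le_mul_of_nonneg_left gz1 (by linarith)
      nlinarith
    have q2 : 2 * l * (‖g‖ - a) < (3 * η - 2 * e) * (‖g‖ - a) := by nlinarith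
    have q3 : 2 * l < 3 * η - 2 * e := lt_of_mul_lt_mul_right q2 hd.le
    have t3 : (1 - l) * (1 - e) ≤ (1 - l) * f z :=
      mul_le_mul_of_nonneg_left hfz.le (by linarith)
    have t4 : l * f y ≤ l * 1 := mul_le_mul_of_nonneg_left fy1 hl0
    nlinarith

end ISG2

theorem pr_SG2 : S_SG2 := by
  intro X _ _ f hsp
  obtain ⟨hf, hsp⟩ := hsp
  refine ⟨hf, ?_⟩
  intro n l g a δ hsmall hδ η hη x hx
  obtain ⟨hl0, hl1, _, hdiam⟩ := hsmall
  have had : ∀ i, a i < ‖g i‖ := by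
    intro i
    have h1 := (hx i).1
    have h2 := ISG2.fle (g i) (x i) 1 h1.1
    have h3 := h1.2
    linarith
  obtain ⟨e, he, heδ, hc⟩ :=
    ISG2.exEps (fun i => 2 * ‖g i‖ / (‖g i‖ - a i) + 2) η δ hη hδ
  have key : ∃ i, (¬ ∃ y, InS (g i) (a i) y ∧ 1 - e < f y) ∨
      (¬ ∃ z, InS (g i) (a i) z ∧ f z < -(1 - e)) := by
    by_contra hcon
    push Not at hcon
    choose hy hz using hcon
    choose y hyS hyf using hy
    choose z hzS hzf using hz
    have hd := hdiam y z hyS hzS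
    have h1 : f (∑ i, l i • (y i - z i)) ≤ δ := by
      have := ISG2.fle f _ _ hd
      have h0 : 0 ≤ δ := (norm_nonneg _).trans hd
      nlinarith
    have h2 : f (∑ i, l i • (y i - z i)) = ∑ i, l i * (f (y i) - f (z i)) := by
      simp only [map_sum, map_smul, map_sub, smul_eq_mul]
    have h3 : ∑ i, l i * (2 * (1 - e)) ≤ ∑ i, l i * (f (y i) - f (z i)) := by
      apply Finset.sum_le_sum
      intro i _
      apply mul_le_mul_of_nonneg_left _ (hl0 i)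
      have := hyf i
      have := hzf i
      linarith
    rw [← Finset.sum_mul, hl1, one_mul] at h3
    rw [h2] at h1
    linarith
  obtain ⟨i, hi⟩ := key
  refine ⟨i, ?_⟩
  obtain ⟨y, z, m, hy, hz, hfy, hfz, hm0, hm1, hxm⟩ := hsp (x i) (hx i).1.1 e he
  have hos := ISG2.oneSide f hf (g i) (a i) η e (x i) y z m he (had i) (hc i) (hx i).2 hy hz
    hfy hfz hm0 hm1 hxm
  rcases hi with hi | hi
  · have hgy : g i y ≤ a i := by
      by_contra h
      push Not at h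
      exact hi ⟨y, ⟨hy, h⟩, hfy⟩
    exact (hos.2 hgy).trans (neg_le_abs _)
  · have hgz : g i (-z) ≤ a i := by
      by_contra h
      push Not at h
      exact hi ⟨-z, ⟨by rw [norm_neg]; exact hz, h⟩, by rw [map_neg]; linarith⟩
    exact (hos.1 hgz).trans (le_abs_self _)

end MPbb13ef
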