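import Pool.Agent.Work.MP_bb13ef_an.TD.Stmts

/-!
[bb13ef TD] item SP2: good functionals of norm one are spears.
-/

set_option autoImplicit false

namespace MPbb13ef

namespace ISP2

variable {X : Type} [NormedAddCommGroup X] [NormedSpace ℝ X]

theorem exists_gt (g : X →L[ℝ] ℝ) (c : ℝ) (hc : c < ‖g‖) : ∃ x : X, ‖x‖ ≤ 1 ∧ c < g x := by
  obtain ⟨x, hx, hcx⟩ := ContinuousLinearMap.exists_lt_apply_of_lt_opNorm g hc
  rw [Real.norm_eq_abs] at hcx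
  rcases lt_abs.1 hcx with h | h
  · exact ⟨x, hx.le, h⟩
  · refine ⟨-x, ?_, ?_⟩
    · rw [norm_neg]
      exact hx.le
    · rw [map_neg]
      exact h

theorem le_norm (g : X →L[ℝ] ℝ) {x : X} (hx : ‖x‖ ≤ 1) : g x ≤ ‖g‖ := by
  have h1 : ‖g x‖ ≤ ‖g‖ * ‖x‖ := g.le_opNorm x
  rw [Real.norm_eq_abs] at h1
  have h2 : ‖g‖ * ‖x‖ ≤ ‖g‖ * 1 := mul_le_mul_of_nonneg_left hx (norm_nonneg _)
  rw [mul_one] at h2
  exact le_trans (le_abs_self _) (le_trans h1 h2)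

theorem deep (g : X →L[ℝ] ℝ) (a η : ℝ) (hη : 0 < η) (h : ∃ x, InS g a x) :
    ∃ x, InS g a x ∧ ‖g‖ - η * (‖g‖ - a) < g x := by
  obtain ⟨x0, hx0⟩ := h
  have h1 : a < ‖g‖ := lt_of_lt_of_le hx0.2 (le_norm g hx0.1)
  have h2 : ‖g‖ - η * (‖g‖ - a) < ‖g‖ := by
    have : 0 < η * (‖g‖ - a) := mul_pos hη (sub_pos.2 h1)
    linarith
  obtain ⟨x, hx, hcx⟩ := exists_gt g (max a (‖g‖ - η * (‖g‖ - a))) (max_lt h1 h2)
  exact ⟨x, ⟨hx, lt_of_le_of_lt (le_max_left _ _) hcx⟩, lt_of_le_of_lt (le_max_right _ _) hcx⟩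

end ISP2

theorem pr_SP2 : S_SP2 := by
  intro X _ _ hloc f hgood hf1
  refine ⟨hf1, fun ε hε z0 hz0 => ?_⟩
  by_contra hz
  obtain ⟨h, b, hb, hzb⟩ := geometric_hahn_banach_closed_point
    (convex_convexHull ℝ _).closure isClosed_closure hz
  have hb' : ∀ x : X, ‖x‖ ≤ 1 → 1 - ε < |f x| → h x < b := by
    intro x hx hfx
    refine hb x (subset_closure (subset_convexHull ℝ _ ?_))
    rcases lt_abs.1 hfx with h1 | h1
    · exact Or.inl ⟨hx, h1⟩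
    · exact Or.inr ⟨hx, by linarith⟩
  rw [mem_closedBall_zero_iff] at hz0
  obtain ⟨n, l, g, a, δ, hs, hδ, hsub⟩ := hloc h b ⟨z0, hz0, hzb⟩
  have hη : 0 < ε / 4 := by linarith
  choose x hx using fun i => ISP2.deep (g i) (a i) (ε / 4) hη (hs.2.2.1 i)
  obtain ⟨i, hi⟩ := hgood.2 n l g a δ hs hδ (ε / 4) hη x hx
  have h1 := hb' (x i) (hx i).1.1 (by linarith)
  have h2 := hsub i (x i) (hx i).1
  linarith

end MPbb13ef
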