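import Pool.Agent.Work.MP_bb13ef_an.TD.Stmts2

/-! Block TD, second part, item VSP: splitting. -/

set_option autoImplicit false

open scoped ZeroAtInfty

namespace MPbb13ef

namespace IVSP

theorem OV_mono {X : Type} [NormedAddCommGroup X] [NormedSpace ℝ X] (v : ℕ → X) {M M' : Set ℕ}
    (h : M' ⊆ M) : OV v M' ⊆ OV v M := by
  intro f hf
  refine ⟨hf.1, fun s N => ?_⟩
  obtain ⟨n, h1, h2, h3⟩ := hf.2 s N
  exact ⟨n, h h1, h2, h3⟩

theorem inf {X : Type} [NormedAddCommGroup X] [NormedSpace ℝ X] (v : ℕ → X) {M : Set ℕ}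
    {f : X →L[ℝ] ℝ} (hf : f ∈ OV v M) (s : Bool) : {n | n ∈ M ∧ f (v n) = sg s}.Infinite := by
  apply Set.infinite_of_not_bddAbove
  rintro ⟨B, hB⟩
  obtain ⟨n, h1, h2, h3⟩ := hf.2 s (B + 1)
  have h4 : n ≤ B := hB ⟨h1, h3⟩
  omega

theorem cons {X : Type} [NormedAddCommGroup X] [NormedSpace ℝ X] (v : ℕ → X)
    {σ : List (ℕ × Bool)} {f : X →L[ℝ] ℝ} (hf : f ∈ BV v σ) (m : ℕ) (s : Bool)
    (h : f (v m) = sg s) : f ∈ BV v ((m, s) :: σ) := by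
  refine ⟨hf.1, fun p hp => ?_⟩
  rcases List.mem_cons.1 hp with rfl | hp
  · exact h
  · exact hf.2 p hp

end IVSP

theorem pr_VSP : S_VSP := by
  intro X _ _ v M hM hst J _ σ hσ
  classical
  have key : ∀ F : Finset (J × Bool), ∃ M' : Set ℕ, M' ⊆ M ∧ M'.Infinite ∧ ∀ p ∈ F,
      ∃ f ∈ BV v (σ p.1) ∩ OV v M, ∀ n ∈ M', f (v n) = sg p.2 := by
    intro F
    induction F using Finset.induction_on with
    | empty => exact ⟨M, subset_rfl, hM, fun p hp => absurd hp (Finset.notMem_empty p)⟩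
    | insert p F _ ih =>
      obtain ⟨M', h1, h2, h3⟩ := ih
      obtain ⟨f, hf1, hf2⟩ := hst (σ p.1) (hσ p.1) M' h1 h2
      refine ⟨{n | n ∈ M' ∧ f (v n) = sg p.2}, fun n hn => h1 hn.1, IVSP.inf v hf2 p.2, ?_⟩
      intro q hq
      rcases Finset.mem_insert.1 hq with rfl | hq
      · exact ⟨f, ⟨hf1, IVSP.OV_mono v h1 hf2⟩, fun n hn => hn.2⟩
      · obtain ⟨f', hf', h4⟩ := h3 q hq
        exact ⟨f', hf', fun n hn => h4 n hn.1⟩
  obtain ⟨M', _, h2, h3⟩ := key Finset.univ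
  obtain ⟨m, hm⟩ := h2.nonempty
  refine ⟨m, fun j => ⟨?_, ?_⟩⟩
  · obtain ⟨f, hf, h4⟩ := h3 (j, true) (Finset.mem_univ _)
    exact ⟨f, IVSP.cons v hf.1 m true (h4 m hm), hf.2⟩
  · obtain ⟨f, hf, h4⟩ := h3 (j, false) (Finset.mem_univ _)
    exact ⟨f, IVSP.cons v hf.1 m false (h4 m hm), hf.2⟩

end MPbb13ef
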