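import Pool.Agent.Work.MP_bb13ef_an.TD.All

/-!
# Copies of `ℓ₁` in terms of sequences
-/

set_option autoImplicit false

namespace MPbb13ef

/-- an embedding of `ℓ₁` gives a bounded sequence with a lower `ℓ₁` estimate -/
theorem seq_of_hasL1 (X : Type) [NormedAddCommGroup X] [NormedSpace ℝ X] (h : HasL1 X) :
    ∃ (x : ℕ → X) (c : ℝ), 0 < c ∧ (∀ n, ‖x n‖ ≤ 1) ∧
      ∀ (s : Finset ℕ) (a : ℕ → ℝ), c * ∑ n ∈ s, |a n| ≤ ‖∑ n ∈ s, a n • x n‖ := by
  classical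
  obtain ⟨S, c, hc, hS⟩ := h
  obtain ⟨K, hK⟩ : ∃ K : ℝ, K = max ‖S‖ 1 := ⟨_, rfl⟩
  have hK1 : 1 ≤ K := by rw [hK]; exact le_max_right _ _
  have hKS : ‖S‖ ≤ K := by rw [hK]; exact le_max_left _ _
  have hK0 : 0 < K := lt_of_lt_of_le one_pos hK1
  have hsum : ∀ (s : Finset ℕ) (a : ℕ → ℝ),
      ‖∑ n ∈ s, lp.single (E := fun _ : ℕ => ℝ) 1 n (a n)‖ = ∑ n ∈ s, |a n| := by
    intro s a
    have h1 := lp.norm_sum_single (p := 1) (E := fun _ : ℕ => ℝ) (by simp) a s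
    simpa using h1
  refine ⟨fun n => K⁻¹ • S (lp.single (E := fun _ : ℕ => ℝ) 1 n (1 : ℝ)), K⁻¹ * c,
    by positivity, ?_, ?_⟩
  · intro n
    have h1 : ‖lp.single (E := fun _ : ℕ => ℝ) 1 n (1 : ℝ)‖ = 1 := by
      have := hsum {n} (fun _ => 1)
      simpa using this
    have h2 := S.le_opNorm (lp.single (E := fun _ : ℕ => ℝ) 1 n (1 : ℝ))
    rw [h1, mul_one] at h2
    rw [norm_smul, norm_inv, Real.norm_of_nonneg hK0.le]
    rw [inv_mul_le_iff₀ hK0, mul_one]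
    exact h2.trans hKS
  · intro s a
    have h1 : ∑ n ∈ s, a n • (K⁻¹ • S (lp.single (E := fun _ : ℕ => ℝ) 1 n (1 : ℝ))) =
        K⁻¹ • S (∑ n ∈ s, lp.single (E := fun _ : ℕ => ℝ) 1 n (a n)) := by
      rw [map_sum, Finset.smul_sum]
      refine Finset.sum_congr rfl fun n _ => ?_
      rw [smul_comm]
      congr 1
      rw [← map_smul]
      congr 1
      ext m
      simp only [lp.coeFn_smul, Pi.smul_apply, lp.single_apply, smul_eq_mul]
      by_cases hm : m = n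
      · subst hm; simp
      · simp [Pi.single_apply, hm]
    rw [h1, norm_smul, norm_inv, Real.norm_of_nonneg hK0.le, mul_assoc]
    refine mul_le_mul_of_nonneg_left ?_ (inv_nonneg.2 hK0.le)
    have h2 := hS (∑ n ∈ s, lp.single (E := fun _ : ℕ => ℝ) 1 n (a n))
    rwa [hsum] at h2

end MPbb13ef
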