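import Pool.Agent.Work.MP_bb13ef_an.SR.Main

/-!
# Block TD: numerical index one without `c₀` and `ℓ₁` gives a slice of the unit ball in which all
# convex combinations of slices have diameter two

`MPbb13ef.InS g a x` : `‖x‖ ≤ 1` and `a < g x` (slice of the unit ball).
`MPbb13ef.Small l g a δ` : the convex combination `∑ l i • S i` of the nonempty slices
`S i = {InS (g i) (a i)}` has diameter at most `δ`.
-/

set_option autoImplicit false

open scoped ZeroAtInfty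

namespace MPbb13ef

section

variable {X : Type} [NormedAddCommGroup X] [NormedSpace ℝ X]

/-- the weakly open subset of the unit ball given by a finite list of functionals and bounds -/
def WO (τ : List ((X →L[ℝ] ℝ) × ℝ)) : Set X := {y | ‖y‖ ≤ 1 ∧ ∀ p ∈ τ, p.2 < p.1 y}

/-- the family `𝒲` does not determine the slice `{g > b}`; the slice contains `d` with gap `δ` -/
def NN (d : X) (b δ : ℝ) (𝒲 : Set (List ((X →L[ℝ] ℝ) × ℝ))) : Set (X →L[ℝ] ℝ) :=
  {g | ‖g‖ ≤ 1 ∧ b + δ < g d ∧ ∀ τ ∈ 𝒲, (WO τ).Nonempty → ∃ y ∈ WO τ, g y ≤ b}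

/-- boxes of functionals: large or small at finitely many points of the sequence `d` -/
def BX (d : ℕ → X) (b δ : ℝ) (σ : List (ℕ × Bool)) : Set (X →L[ℝ] ℝ) :=
  {g | ∀ p ∈ σ, if p.2 then b + 2 * δ / 3 < g (d p.1) else g (d p.1) < b + δ / 3}

/-- a box is fertile if it meets `NN 𝒲` for every countable family `𝒲` -/
def Fert (d : ℕ → X) (d₀ : X) (b δ : ℝ) (σ : List (ℕ × Bool)) : Prop :=
  ∀ 𝒲 : Set (List ((X →L[ℝ] ℝ) × ℝ)), 𝒲.Countable → (BX d b δ σ ∩ NN d₀ b δ 𝒲).Nonempty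

/-- functionals which are almost `1` or `-1` at one of the deep points of every convex combination
of slices of diameter smaller than two -/
def Good2 (f : X →L[ℝ] ℝ) : Prop :=
  ‖f‖ ≤ 1 ∧ ∀ (n : ℕ) (l : Fin n → ℝ) (g : Fin n → (X →L[ℝ] ℝ)) (a : Fin n → ℝ) (δ : ℝ),
    Small l g a δ → δ < 2 → ∀ η : ℝ, 0 < η → ∀ x : Fin n → X,
      (∀ i, InS (g i) (a i) (x i) ∧ ‖g i‖ - η * (‖g i‖ - a i) < g i (x i)) →
      ∃ i, 1 - 3 * η ≤ |f (x i)|

end

/-- every slice of the unit ball contains slices of the unit ball with a convex combination of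
diameter smaller than two -/
def Loc (X : Type) [NormedAddCommGroup X] [NormedSpace ℝ X] : Prop :=
  ∀ (h : X →L[ℝ] ℝ) (b : ℝ), (∃ z, InS h b z) →
    ∃ (n : ℕ) (l : Fin n → ℝ) (g : Fin n → (X →L[ℝ] ℝ)) (a : Fin n → ℝ) (δ : ℝ),
      Small l g a δ ∧ δ < 2 ∧ ∀ i, ∀ x, InS (g i) (a i) x → b < h x

/-- BOUF (MEDIUM), Bourgain's lemma: every nonempty `WO τ` contains a convex combination of slices.

Proof (the same as the proof of `prf_BOU` in `Bd/B04.lean`, which is the case of two functionals).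
Let `m = τ.length`, `E = EuclideanSpace ℝ (Fin m)`, `H : X →L[ℝ] E` the map whose coordinates are
the functionals of `τ`, `z ∈ WO τ`, `η > 0` smaller than all `p.1 z - p.2`, `p ∈ τ` (finite list).
Let `D` be the set of all `e`, `‖e‖ ≤ 1`, such that there are `k`, `a` with `InS k a e` and
`‖H x - H e‖ < η / 2` for all `x` with `InS k a x`. CLAIM: `H z ∈ closure (convexHull ℝ (H '' D))`.
Otherwise Hahn and Banach give `v ∈ E`, `c` with `⟪v, H e⟫ < c < ⟪v, H z⟫` for all `e ∈ D`. For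
large `R` let `Ψ x = ‖H x + R v‖ ^ 2` (bounded on the ball), `θ = η ^ 2 / 16`, and choose `e` in the
ball with `Ψ e > sup Ψ - θ` and `Ψ e ≥ Ψ z`. From `Ψ e ≥ Ψ z`:
`2 R ⟪v, H z⟫ ≤ ‖H e‖ ^ 2 + 2 R ⟪v, H e⟫`, so `⟪v, H e⟫ > c` if `R` is large. But `e ∈ D`: take
`k x = ⟪H e + R v, H x⟫`, `a = k e - θ`; if `k x > k e - θ`, `‖x‖ ≤ 1`, then
`‖H x - H e‖ ^ 2 = Ψ x - Ψ e - 2 (k x - k e) < θ + 2 θ < (η / 2) ^ 2`. Contradiction.
From the claim there are `e i ∈ D` and weights `l i` with `‖H z - ∑ l i • H (e i)‖ < η / 2`, and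
then `‖H (∑ l i • x i) - H z‖ < η` for all `x i` in the slices belonging to `e i`. -/
def S_BOUF : Prop := ∀ (X : Type) [NormedAddCommGroup X] [NormedSpace ℝ X]
  (τ : List ((X →L[ℝ] ℝ) × ℝ)), (WO τ).Nonempty →
  ∃ (n : ℕ) (l : Fin n → ℝ) (k : Fin n → (X →L[ℝ] ℝ)) (a : Fin n → ℝ),
    (∀ i, 0 ≤ l i) ∧ ∑ i, l i = 1 ∧ (∀ i, ∃ x, InS (k i) (a i) x) ∧
    ∀ x : Fin n → X, (∀ i, InS (k i) (a i) (x i)) → ∑ i, l i • x i ∈ WO τ

/-- WP1 (EASY-MEDIUM): if no countable family determines all slices, then some `d n, b, δ` are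
fertile.

Proof. Suppose not: for all `n : ℕ` and rational `b`, `δ > 0` there is a countable `𝒲 n b δ` with
`NN (d n) b δ (𝒲 n b δ) = ∅`. Let `𝒲` be the set of all `τ` in the (countable) union of these
families with `WO τ` nonempty. By assumption there are `g, b'` and `z` with `InS g b' z` and for
all `τ ∈ 𝒲` some `y ∈ WO τ` with `g y ≤ b'`. Put `c = max ‖g‖ 1`, `g₁ = c⁻¹ • g`, `b₁ = b' / c`,
`s = g₁ z - b₁ > 0`; choose rationals `b ∈ (b₁, b₁ + s / 4)`, `δ ∈ (0, s / 4)` and `n` with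
`‖z - d n‖ < s / 4`. Then `g₁ ∈ NN (d n) b δ (𝒲 n b δ)`: contradiction. -/
def S_WP1 : Prop := ∀ (X : Type) [NormedAddCommGroup X] [NormedSpace ℝ X] (d : ℕ → X),
  (∀ n, ‖d n‖ ≤ 1) → (∀ x : X, ‖x‖ ≤ 1 → ∀ ε : ℝ, 0 < ε → ∃ n, ‖x - d n‖ < ε) →
  (∀ 𝒲 : Set (List ((X →L[ℝ] ℝ) × ℝ)), 𝒲.Countable → (∀ τ ∈ 𝒲, (WO τ).Nonempty) →
    ∃ (g : X →L[ℝ] ℝ) (b : ℝ), (∃ z, InS g b z) ∧ ∀ τ ∈ 𝒲, ∃ y ∈ WO τ, g y ≤ b) →
  ∃ (n : ℕ) (b δ : ℝ), 0 < δ ∧ Fert d (d n) b δ []

/-- WP2 (MEDIUM): fertile boxes can be split simultaneously.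

Proof. First a countable `𝒲₀` such that for every `σ`: if `BX d b δ σ` meets `NN 𝒲₀`, then `σ` is
fertile (for each of the countably many `σ` which are not fertile take a countable `𝒲 σ` such that
the box does not meet `NN (𝒲 σ)`, and let `𝒲₀` be the union; `NN` is antitone in `𝒲`). Choose
`a j ∈ BX (σ j) ∩ NN 𝒲₀`. Let `τ₀` be the list of all `(a j, b + δ)`, `j ∈ J`; `d₀ ∈ WO τ₀`. By
induction on a finite set `F ⊆ J`: there is a list `τ` with `WO τ` nonempty, `WO τ ⊆ WO τ₀` and for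
every `j ∈ F` some `g ∈ BX (σ j) ∩ NN 𝒲₀` with `g y < b + δ / 6` for all `y ∈ WO τ`; step: fertility
of `σ j` for `𝒲₀ ∪ {τ}` gives `g` and `y ∈ WO τ` with `g y ≤ b`, pass to the list
`(-g, -(b + δ / 6)) :: τ`. For `F = J` take `y ∈ WO τ` and `m` with `‖y - d m‖ < δ / 6`. Then
`a j (d m) > b + 5 δ / 6` and `g (d m) < b + δ / 3`, so the boxes `(m, true) :: σ j` and
`(m, false) :: σ j` meet `NN 𝒲₀` and are fertile. -/
def S_WP2 : Prop := ∀ (X : Type) [NormedAddCommGroup X] [NormedSpace ℝ X] (d : ℕ → X) (d₀ : X)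
  (b δ : ℝ), (∀ n, ‖d n‖ ≤ 1) → (∀ x : X, ‖x‖ ≤ 1 → ∀ ε : ℝ, 0 < ε → ∃ n, ‖x - d n‖ < ε) →
  ‖d₀‖ ≤ 1 → 0 < δ → ∀ (J : Type) [Fintype J] (σ : J → List (ℕ × Bool)),
  (∀ j, Fert d d₀ b δ (σ j)) →
  ∃ m : ℕ, ∀ j, Fert d d₀ b δ ((m, true) :: σ j) ∧ Fert d d₀ b δ ((m, false) :: σ j)

/-- WP3 (EASY-MEDIUM): a fertile empty box gives a sequence which is independent.

Proof. Call a list `L : List ℕ` good if for every list `S : List Bool` of the same length the box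
`L.zip S` is fertile. `[]` is good. If `L` is good then by `S_WP2` (`J = List.Vector Bool L.length`,
which is a `Fintype`, or a finite type of your choice) there is `m` with `m :: L` good. Choose
recursively `L n` of length `n`, `L (n + 1) = m n :: L n`. For `n` and `s` take
`S = [s (n - 1), …, s 0]`; a functional in the box `(L n).zip S` (fertility for `𝒲 = ∅`) is as
required; it has norm `≤ 1` because it is in `NN`. -/
def S_WP3 : Prop := S_WP2 → ∀ (X : Type) [NormedAddCommGroup X] [NormedSpace ℝ X] (d : ℕ → X)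
  (d₀ : X) (b δ : ℝ), (∀ n, ‖d n‖ ≤ 1) →
  (∀ x : X, ‖x‖ ≤ 1 → ∀ ε : ℝ, 0 < ε → ∃ n, ‖x - d n‖ < ε) →
  ‖d₀‖ ≤ 1 → 0 < δ → Fert d d₀ b δ [] →
  ∃ m : ℕ → ℕ, ∀ (n : ℕ) (s : ℕ → Bool), ∃ g : X →L[ℝ] ℝ, ‖g‖ ≤ 1 ∧ ∀ i < n,
    if s i then b + 2 * δ / 3 < g (d (m i)) else g (d (m i)) < b + δ / 3

/-- LG (EASY): independent sequences with a gap give a copy of `ℓ₁`.

Proof. For `n, s` let `g` be the functional for `s` and `g'` the one for the opposite signs;
`e = (1 / 2) • (g - g')` satisfies `‖e‖ ≤ 1` and `(h - l) / 2 ≤ sg (s i) * e (x i)`. Then copy the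
proof of `prf_L1E` in `Bd/B02.lean` (there `1 / 2` in place of `(h - l) / 2`): the operator
`a ↦ ∑' n, a n • x n` is bounded below by `(h - l) / 2`. -/
def S_LG : Prop := ∀ (X : Type) [NormedAddCommGroup X] [NormedSpace ℝ X] [CompleteSpace X]
  (x : ℕ → X) (l h : ℝ), l < h → (∀ n, ‖x n‖ ≤ 1) →
  (∀ (n : ℕ) (s : ℕ → Bool), ∃ g : X →L[ℝ] ℝ, ‖g‖ ≤ 1 ∧ ∀ i < n,
    if s i then h < g (x i) else g (x i) < l) → HasL1 X

/-- WPB (EASY, assembly): without `ℓ₁` a countable family of weakly open sets determines all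
slices. Proof: otherwise `S_WP1`, `S_WP3`, `S_LG` (with `prf_DNS` for the sequence `d`). -/
def S_WPB : Prop := ∀ (X : Type) [NormedAddCommGroup X] [NormedSpace ℝ X] [CompleteSpace X]
  [TopologicalSpace.SeparableSpace X], ¬ HasL1 X →
  ∃ 𝒲 : Set (List ((X →L[ℝ] ℝ) × ℝ)), 𝒲.Countable ∧ (∀ τ ∈ 𝒲, (WO τ).Nonempty) ∧
    ∀ (g : X →L[ℝ] ℝ) (b : ℝ), (∃ z, InS g b z) → ∃ τ ∈ 𝒲, ∀ y ∈ WO τ, b < g y

/-- CIT (MEDIUM): one functional for countably many slices.

Proof. Let `E = ε / 2`, `c j = j + 1`. Enumerate the slices so that each is met infinitely often: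
at step `j` use the slice number `(Nat.unpair j).1`. Recursively `w 0 = x`, and given `w j` apply
`ADP` to `w j`, the slice, and `ε j` with `ε j * (1 + c j) ≤ E / 2 ^ (j + 1)`: there are `y j` in
the slice and `f`, `‖f‖ ≤ 1`, with `‖w j‖ - ε j < f (w j)` and `1 - ε j < |f (y j)|`; let `s j` be
the sign of `f (y j)` and `w (j + 1) = w j + (s j * c j) • y j`, so that
`‖w (j + 1)‖ ≥ ‖w j‖ + c j - E / 2 ^ (j + 1)` and `‖w N‖ ≥ ‖x‖ + ∑ j < N, c j - E`. A norming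
functional `f N` of `w N` satisfies `f N x ≥ ‖x‖ - E` and `s j * f N (y j) ≥ 1 - E / c j` for
`j < N`. By compactness of the dual ball (`WeakDual.isCompact_closedBall`, finite intersection
property as in `prf_BD` in `Bd/B04.lean`) there is `f`, `‖f‖ ≤ 1`, with `f x ≥ ‖x‖ - E` and
`s j * f (y j) ≥ 1 - E / c j` for all `j`. For `i, η` take `j = Nat.pair i k` with `E / c j < η`. -/
def S_CIT : Prop := ∀ (X : Type) [NormedAddCommGroup X] [NormedSpace ℝ X], ADP X →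
  ∀ (x : X) (g : ℕ → (X →L[ℝ] ℝ)) (a : ℕ → ℝ), (∀ i, ∃ z, InS (g i) (a i) z) → ∀ ε : ℝ, 0 < ε →
  ∃ f : X →L[ℝ] ℝ, ‖f‖ ≤ 1 ∧ ‖x‖ - ε < f x ∧
    ∀ i, ∀ η : ℝ, 0 < η → ∃ y, InS (g i) (a i) y ∧ 1 - η < |f y|

/-- NRM (MEDIUM): the spears are norming.

Proof. Let `𝒲` be as in `S_WPB`; for each `τ ∈ 𝒲` choose a convex combination of slices inside
`WO τ` (`S_BOUF`). All these slices form a countable set (nonempty: the slice `{0 > -1}` is the
whole ball and contains some `WO τ`); enumerate them and let `f` be given by `S_CIT` with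
`ε = ‖x‖ - r`. Then `‖f‖ = 1` because `‖f‖ ≥ |f y| > 1 - η`. If the closed convex hull of
`A = {1 - ε < |f|}` (in the ball) does not contain the ball, Hahn and Banach give `h, b, z₀` with
`h < b` on `A` and `b < h z₀`, `‖z₀‖ ≤ 1`; some `WO τ ⊆ {h > b}`, and its convex combination has
points `∑ l i • y i` with `y i` in the slices and `1 - ε < |f (y i)|`, so `h (y i) < b` for all `i`
but `b < h (∑ l i • y i)`: contradiction. -/
def S_NRM : Prop := S_WPB → S_BOUF → S_CIT → ∀ (X : Type) [NormedAddCommGroup X]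
  [NormedSpace ℝ X] [CompleteSpace X] [TopologicalSpace.SeparableSpace X], ADP X → ¬ HasL1 X →
  ∀ (x : X) (r : ℝ), r < ‖x‖ → ∃ f : X →L[ℝ] ℝ, Spear f ∧ r < f x

/-- SG2 (MEDIUM): spears are good.

Proof. Use `Sp f` (from `prf_HULL`). Let `l, g, a, δ, η, x` be as in `Good2`; all `a i < ‖g i‖`.
Choose `ε' > 0` with `2 * (1 - ε') > δ` and, for all `i`,
`2 * ‖g i‖ * ε' / (‖g i‖ - a i) + 2 * ε' ≤ η`. There is `i` such that the slice `i` does not contain
both a point with `f > 1 - ε'` and a point with `f < -(1 - ε')`: otherwise take `y i`, `z i` such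
points and `∑ l i * (f (y i) - f (z i)) ≤ ‖∑ l i • (y i - z i)‖ ≤ δ < 2 * (1 - ε')` while each
difference is `≥ 2 * (1 - ε')` and `∑ l i = 1`. By symmetry let there be no point with
`f < -(1 - ε')`. `Sp f` for `x i` and `ε'` gives `y, z, λ` with `f y, f z > 1 - ε'` and
`‖x i - (λ • y - (1 - λ) • z)‖ < ε'`. The point `-z` is in the ball and `f (-z) < -(1 - ε')`, so
`g i (-z) ≤ a i`. Hence `g i (x i) ≤ λ ‖g i‖ + (1 - λ) a i + ‖g i‖ ε'`, and deepness gives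
`(1 - λ) (‖g i‖ - a i) < η (‖g i‖ - a i) + ‖g i‖ ε'`. So
`f (x i) ≥ λ (1 - ε') - (1 - λ) - ε' ≥ 1 - 2 (1 - λ) - 2 ε' ≥ 1 - 3 η`. -/
def S_SG2 : Prop := ∀ (X : Type) [NormedAddCommGroup X] [NormedSpace ℝ X] (f : X →L[ℝ] ℝ),
  Sp f → Good2 f

/-- CP2 (EASY-MEDIUM): compactness.

Proof. As in `prf_BD` in `Bd/B04.lean`: in `WeakDual ℝ X` the sets `{f | ∃ i, 1 - 3 η ≤ |f (x i)|}`
(one for every `n, l, g, a, δ, η, x` as in `Good2`; finite unions of closed sets) and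
`{f | ‖x‖ - 1 / (k + 1) ≤ f x}` are closed, and every finite subfamily has a common point in the
dual ball, namely a functional with `Good2 f` and `‖x‖ - 1 / (K + 1) < f x`. -/
def S_CP2 : Prop := ∀ (X : Type) [NormedAddCommGroup X] [NormedSpace ℝ X] (x : X),
  (∀ r : ℝ, r < ‖x‖ → ∃ f : X →L[ℝ] ℝ, Good2 f ∧ r < f x) →
  ∃ f : X →L[ℝ] ℝ, Good2 f ∧ f x = ‖x‖

/-- SP2 (EASY-MEDIUM): good functionals of norm one are spears.

Proof. As in `prf_SPR` in `Bd/B04.lean`: if the closed convex hull does not contain `z₀` of the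
ball, Hahn and Banach give `h, b` with `h x < b` whenever `‖x‖ ≤ 1`, `1 - ε < |f x|`, and
`b < h z₀`. `Loc X` for `h, b` gives a convex combination of slices `i` with `h > b` on every slice.
Let `η = ε / 4`; deep points `x i` exist because the supremum of `g i` on the ball is `‖g i‖` (and
`a i < ‖g i‖` as the slice is nonempty). `Good2` gives `i` with `1 - ε < 1 - 3 η ≤ |f (x i)|`, hence
`h (x i) < b`, but `b < h (x i)`: contradiction. -/
def S_SP2 : Prop := ∀ (X : Type) [NormedAddCommGroup X] [NormedSpace ℝ X], Loc X →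
  ∀ f : X →L[ℝ] ℝ, Good2 f → ‖f‖ = 1 → Spear f

/-- TDM: the theorem. Proof: `prf_NIA`, `S_NRM`, `S_SG2`, `S_CP2`, `S_SP2`, then as in `prf_FIN2`
with `prf_SET` and `prf_MAIN`. -/
def S_TDM : Prop := ∀ (X : Type) [NormedAddCommGroup X] [NormedSpace ℝ X] [CompleteSpace X]
  [TopologicalSpace.SeparableSpace X], ¬ FiniteDimensional ℝ X → NI1 X → Loc X →
  HasC0 X ∨ HasL1 X

end MPbb13ef
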