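import Pool.Agent.Work.MP_bb13ef_an.TD.Stmts

/-!
# Block TD, second part: the local form
-/

set_option autoImplicit false

open scoped ZeroAtInfty

namespace MPbb13ef

section

variable {X : Type} [NormedAddCommGroup X] [NormedSpace ℝ X]

/-- local spears: up to `η` the unit ball is the convex hull of the slices `±{f > 1 - η}` and of the
part `{g ≤ b}` -/
def LSp (g : X →L[ℝ] ℝ) (b : ℝ) (f : X →L[ℝ] ℝ) : Prop :=
  ‖f‖ ≤ 1 ∧ ∀ x : X, ‖x‖ ≤ 1 → ∀ η : ℝ, 0 < η → ∃ (y z u : X) (l m k : ℝ), ‖y‖ ≤ 1 ∧ ‖z‖ ≤ 1 ∧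
    ‖u‖ ≤ 1 ∧ 1 - η < f y ∧ 1 - η < f z ∧ g u ≤ b ∧ 0 ≤ l ∧ 0 ≤ m ∧ 0 ≤ k ∧ l + m + k = 1 ∧
    ‖x - (l • y - m • z + k • u)‖ < η

/-- local spears and `g`, `-g` -/
def LS (g : X →L[ℝ] ℝ) (b : ℝ) (f : X →L[ℝ] ℝ) : Prop := LSp g b f ∨ f = g ∨ f = -g

/-- every slice of the unit ball inside `{g > b}` contains slices with a convex combination of
diameter smaller than two -/
def LocT (g : X →L[ℝ] ℝ) (b : ℝ) : Prop :=
  ∀ (h : X →L[ℝ] ℝ) (c : ℝ), (∃ z, InS h c z) → (∀ x, InS h c x → b < g x) →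
    ∃ (n : ℕ) (l : Fin n → ℝ) (k : Fin n → (X →L[ℝ] ℝ)) (a : Fin n → ℝ) (δ : ℝ),
      Small l k a δ ∧ δ < 2 ∧ ∀ i, ∀ x, InS (k i) (a i) x → c < h x

/-- spear vectors: `‖v‖ ≤ 1` and `max ‖v ± x‖ = 1 + ‖x‖` for all `x` -/
def SpV (v : X) : Prop := ‖v‖ ≤ 1 ∧ ∀ x : X, 1 + ‖x‖ ≤ ‖v + x‖ ∨ 1 + ‖x‖ ≤ ‖v - x‖

/-- the functionals of the dual ball which are `1` or `-1` at all points of the sequence -/
def KV (v : ℕ → X) : Set (X →L[ℝ] ℝ) := {f | ‖f‖ ≤ 1 ∧ ∀ n, |f (v n)| = 1}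

/-- boxes: prescribed signs at finitely many points of the sequence -/
def BV (v : ℕ → X) (σ : List (ℕ × Bool)) : Set (X →L[ℝ] ℝ) :=
  {f | f ∈ KV v ∧ ∀ p ∈ σ, f (v p.1) = sg p.2}

/-- the functionals of `KV v` which take both signs infinitely often on `M` -/
def OV (v : ℕ → X) (M : Set ℕ) : Set (X →L[ℝ] ℝ) :=
  {f | f ∈ KV v ∧ ∀ (s : Bool) (N : ℕ), ∃ n ∈ M, N ≤ n ∧ f (v n) = sg s}

end

/-- LDT (MEDIUM): determination for local spears.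

Proof. Cases of `LS`. If `e = g`: `T = {g}`, `C = 1`. If `e = -g`: `insert (-e) P = insert g P = P`
(as `g ∈ P`), which is consistent: contradiction. If `LSp g b e`: adapt `prf_DET` (in `Bd/B01.lean`).
`¬ Cons (insert (-e) P)` gives a finite `T' ⊆ insert (-e) P` and `ε > 0`, `ε ≤ 1`, such that every
`x` of the ball has `t x ≤ 1 - ε` for some `t ∈ T'`. Let `T = T'.erase (-e) ∪ {g}` (`⊆ P`),
`S = ∑ t ∈ T, (1 - t x)`, `n = T.card`, `κ = min ε (1 - b) > 0`. For small `η < ε` decompose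
`x = l y - m z + k u + (error η)`. At `-z`: `(-e) (-z) = e z > 1 - η ≥ 1 - ε`, so some `t ∈ T` has
`t (-z) ≤ 1 - ε`, and `∑ t ∈ T, (1 - t (-z)) ≥ ε`. At `u`: `1 - g u ≥ 1 - b`. Hence
`m ε + k (1 - b) ≤ S + n η`, so `m + k ≤ (S + n η) / κ`. And
`1 - e x ≤ l (1 - e y) + m (1 + e z) + k (1 - e u) + η ≤ 2 (m + k) + 2 η`. Let `η → 0`:
`1 - e x ≤ (2 / κ) S`. -/
def S_LDT : Prop := ∀ (X : Type) [NormedAddCommGroup X] [NormedSpace ℝ X]
  (P : Set (X →L[ℝ] ℝ)) (g e : X →L[ℝ] ℝ) (b : ℝ), (∀ t ∈ P, ‖t‖ ≤ 1) → g ∈ P → b < 1 → Cons P →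
  LS g b e → ¬ Cons (insert (-e) P) →
  ∃ (T : Finset (X →L[ℝ] ℝ)) (C : ℝ), (T : Set (X →L[ℝ] ℝ)) ⊆ P ∧ 0 < C ∧
    ∀ x : X, ‖x‖ ≤ 1 → 1 - e x ≤ C * ∑ t ∈ T, (1 - t x)

/-- LB (MEDIUM): determined sets give vertices, local form.

Proof. Copy `prf_B` (in `Bd/B01.lean`, with the lemmas of the namespace `B`); `S_DET` is replaced by
`S_LDT`, `Sp` by `LS g b` (the norms are `≤ 1` because `‖g‖ ≤ 1`), `Q = ∅`; the case `P = ∅` does
not occur as `g ∈ P`. Use `prf_F` (in `ACL/Final.lean`), `prf_SUB`, `prf_CAU`, `prf_INT` directly.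
(`S_LDT` needs `Cons P`, which is part of `Ext D P P`.) -/
def S_LB : Prop := S_LDT → ∀ (X : Type) [NormedAddCommGroup X] [NormedSpace ℝ X] [CompleteSpace X]
  (D P : Set (X →L[ℝ] ℝ)) (g : X →L[ℝ] ℝ) (b : ℝ), (∀ f ∈ D, LS g b f) → (∀ f ∈ D, -f ∈ D) →
  (∀ x : X, ∃ f ∈ D, ‖f‖ ≤ 1 ∧ |f x| = ‖x‖) → ‖g‖ ≤ 1 → b < 1 → g ∈ P → ¬ HasC0 X →
  Ext D P P → Und D P = ∅ → ∃ y ∈ Vtx D, ∀ e ∈ P, e y = 1

/-- LL4 (EASY): `S_L4` with `‖f‖ ≤ 1` in place of `Sp f`.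

Proof. The proof of `prf_L4` in `ACL/I_L4.lean` uses `Sp f` only through `‖f‖ ≤ 1`; copy it. Use
`prf_EXT`. -/
def S_LL4 : Prop := ∀ (X : Type) [NormedAddCommGroup X] [NormedSpace ℝ X]
  (D P : Set (X →L[ℝ] ℝ)) (d : ℕ → X), (∀ f ∈ D, ‖f‖ ≤ 1) → (∀ f ∈ D, -f ∈ D) →
  (∀ n, ‖d n‖ ≤ 1) → (∀ x : X, ‖x‖ ≤ 1 → ∀ ε : ℝ, 0 < ε → ∃ n, ‖x - d n‖ < ε) → Ext D P P →
  (∀ τ, (UB d τ ∩ Und D P).Nonempty → ∀ P', Ext D P P' → (UB d τ ∩ Und D P').Nonempty) →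
  (Und D P).Nonempty →
  ∃ x : ℕ → X, (∀ n, ‖x n‖ ≤ 1) ∧ ∀ (n : ℕ) (s : ℕ → Bool), ∃ e ∈ D, ∀ i < n,
    1 / 2 < sg (s i) * e (x i)

/-- LHU (MEDIUM): good functionals of norm one are local spears.

Proof. Let `x` be in the ball and `η > 0` (we may take `η < 1`); `A₁ = {f > 1 - η}`, `A₂ = -A₁`,
`A₃ = {g ≤ b}` (in the ball), convex and nonempty (`0 ∈ A₃` as `0 ≤ b`; `A₁` as `‖f‖ = 1`). The
ball is contained in the closure of `convexHull (A₁ ∪ A₂ ∪ A₃)`: otherwise Hahn and Banach give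
`h, c, z₀` with `h < c` on `A₁ ∪ A₂ ∪ A₃` and `c < h z₀`; every `x` with `InS h c x` has `b < g x`
(else `x ∈ A₃`), so `LocT` gives slices with a convex combination of diameter `< 2` on which
`h > c`; deep points `x i` (for `η' = η / 4`, as in `S_SP2`) and `Good2` give `i` with
`1 - η < |f (x i)|`, so `x i ∈ A₁ ∪ A₂` and `h (x i) < c`: contradiction. So some point of
`convexHull (A₁ ∪ A₂ ∪ A₃)` is at distance `< η` from `x`; `convexHull_union` (twice) writes it as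
`l • y + m • z' + k • u` with `y ∈ A₁`, `z' ∈ A₂`, `u ∈ A₃`, `l, m, k ≥ 0` with sum one; `z = -z'`. -/
def S_LHU : Prop := ∀ (X : Type) [NormedAddCommGroup X] [NormedSpace ℝ X] (g f : X →L[ℝ] ℝ)
  (b : ℝ), 0 ≤ b → LocT g b → Good2 f → ‖f‖ = 1 → LSp g b f

/-- NOR (EASY): normalisation of slices.

Proof. If `h ≠ 0`: `g = ‖h‖⁻¹ • h`, `b = max (c / ‖h‖) 0`; `b < 1` because `c < h z ≤ ‖h‖`. If
`h = 0`: any `g` of norm one (`exists_dual_vector`), `b = 0`; the slice is the ball. -/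
def S_NOR : Prop := ∀ (X : Type) [NormedAddCommGroup X] [NormedSpace ℝ X], (∃ x : X, x ≠ 0) →
  ∀ (h : X →L[ℝ] ℝ) (c : ℝ), (∃ z, InS h c z) → ∃ (g : X →L[ℝ] ℝ) (b : ℝ), ‖g‖ = 1 ∧ 0 ≤ b ∧
    b < 1 ∧ ∀ x, InS g b x → InS h c x

/-- GEN (EASY): the recursion.

Proof. As for `S_WP3` (in `TD/I_WP3.lean`): call `L : List ℕ` good if `Fe (L.zip S)` for all
`S : List Bool` of the same length; `[]` is good, and good lists can be extended (take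
`J = List.Vector Bool L.length`). Then induct on `n`; `cl m s (n + 1) = (m n, s n) :: cl m s n`. -/
def S_GEN : Prop := ∀ (Fe : List (ℕ × Bool) → Prop), Fe [] →
  (∀ (J : Type) [Fintype J] (σ : J → List (ℕ × Bool)), (∀ j, Fe (σ j)) →
    ∃ m : ℕ, ∀ j, Fe ((m, true) :: σ j) ∧ Fe ((m, false) :: σ j)) →
  ∃ m : ℕ → ℕ, ∀ (s : ℕ → Bool) (n : ℕ),
    Fe (((List.range n).reverse).map fun i => (m i, s i))

/-- VBD (MEDIUM): spear vectors and a boundary.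

Proof. Recursively there are signs `s j` with `‖x + ∑ j < N, s j • v j‖ = ‖x‖ + N` for all `N`:
apply `SpV (v N)` to `w = x + ∑ j < N, s j • v j` (if `1 + ‖w‖ ≤ ‖v N + w‖` take the sign `1`, if
`1 + ‖w‖ ≤ ‖v N - w‖` take `-1`). A norming functional `f N` of this vector, `‖f N‖ ≤ 1`, satisfies
`f N x = ‖x‖` and `s j * f N (v j) = 1` for `j < N`. Compactness of the dual ball
(`WeakDual.isCompact_closedBall` and the finite intersection property, as in `prf_BD` in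
`Bd/B04.lean`) gives `f`. -/
def S_VBD : Prop := ∀ (X : Type) [NormedAddCommGroup X] [NormedSpace ℝ X] (v : ℕ → X),
  (∀ n, SpV (v n)) → ∀ x : X, ∃ f ∈ KV v, f x = ‖x‖

/-- VST (MEDIUM): stabilisation.

Proof. Enumerate the lists `σ 0, σ 1, …`. Let `M 0 = univ`; `M (k + 1) ⊆ M k` is an infinite set
such that `BV v (σ k) ∩ OV v (M (k + 1)) = ∅` if there is one, and `M (k + 1) = M k` otherwise.
Choose `m 0 < m 1 < …` with `m k ∈ M k`, and `M = {m k}`; `M \ M k` is finite for every `k`. `OV`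
depends only on tails: `OV v M ⊆ OV v (M k)`. If `BV v (σ k)` meets `OV v M`, then it meets
`OV v (M (k + 1))`, so no infinite `M' ⊆ M k` has `BV v (σ k) ∩ OV v M' = ∅`; for infinite `M' ⊆ M`
the set `M' ∩ M k` is infinite and `OV v (M' ∩ M k) ⊆ OV v M'`. -/
def S_VST : Prop := ∀ (X : Type) [NormedAddCommGroup X] [NormedSpace ℝ X] (v : ℕ → X),
  ∃ M : Set ℕ, M.Infinite ∧ ∀ σ : List (ℕ × Bool), (BV v σ ∩ OV v M).Nonempty →
    ∀ M' : Set ℕ, M' ⊆ M → M'.Infinite → (BV v σ ∩ OV v M').Nonempty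

/-- VSP (MEDIUM): splitting.

Proof. By induction on a finite set `F ⊆ J × Bool`: there is an infinite `M' ⊆ M` such that for all
`(j, s) ∈ F` there is `f ∈ BV v (σ j) ∩ OV v M` with `f (v n) = sg s` for all `n ∈ M'`. Step: take
`f ∈ BV v (σ j) ∩ OV v M'` (stability) and `M'' = {n ∈ M' | f (v n) = sg s}`, which is infinite by
the definition of `OV v M'`; `OV v M' ⊆ OV v M`. For `F = univ` take any `m ∈ M'`. -/
def S_VSP : Prop := ∀ (X : Type) [NormedAddCommGroup X] [NormedSpace ℝ X] (v : ℕ → X) (M : Set ℕ),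
  M.Infinite → (∀ σ : List (ℕ × Bool), (BV v σ ∩ OV v M).Nonempty →
    ∀ M' : Set ℕ, M' ⊆ M → M'.Infinite → (BV v σ ∩ OV v M').Nonempty) →
  ∀ (J : Type) [Fintype J] (σ : J → List (ℕ × Bool)),
  (∀ j, (BV v (σ j) ∩ OV v M).Nonempty) →
  ∃ m : ℕ, ∀ j, (BV v ((m, true) :: σ j) ∩ OV v M).Nonempty ∧
    (BV v ((m, false) :: σ j) ∩ OV v M).Nonempty

/-- VC0 (MEDIUM): eventually constant signs give `c₀`.

Proof. Let `M = {m 0 < m 1 < …}`. `z k = v (m (2 k)) - v (m (2 k + 1)) ≠ 0`, and `‖z k‖ = 2`: the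
functional `f ∈ KV v` with `f (z k) = ‖z k‖` (`S_VBD`) takes values in `{0, 2, -2}` at `z k`. Every
`f ∈ KV v` has `f (v n) = 1` for all large `n ∈ M` or `f (v n) = -1` for all large `n ∈ M` (it is
not in `OV v M`), so `f (z k) = 0` for large `k` and `∑ |f (z k)|` converges. `prf_F` (in
`ACL/Final.lean`) with the boundary `KV v` and `δ = 2` gives `HasC0 X`. -/
def S_VC0 : Prop := S_VBD → ∀ (X : Type) [NormedAddCommGroup X] [NormedSpace ℝ X]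
  [CompleteSpace X] (v : ℕ → X), (∀ n, SpV (v n)) → Function.Injective v → ∀ M : Set ℕ,
  M.Infinite → OV v M = ∅ → HasC0 X

end MPbb13ef
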